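import Mathlib

set_option autoImplicit false

/-!
Matroids whose circuits form a Hilbert basis: a necessary condition for matroids in which all the
elements can be exchanged for each other in circuits.
-/

namespace Pool.Agent.Q114.HB

open Finset

set_option linter.unusedSectionVars false

variable {α : Type} [Fintype α] [DecidableEq α]

/-- `p` is a nonnegative rational combination of the incidence vectors of the circuits of `M`. -/
def InCone (M : Matroid α) (p : α → ℤ) : Prop :=
  ∃ c : Finset α → ℚ, (∀ C, 0 ≤ c C) ∧ (∀ C, c C ≠ 0 → M.IsCircuit (C : Set α)) ∧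
    ∀ x, (p x : ℚ) = ∑ C : Finset α, if x ∈ C then c C else 0

/-- `p` is an integer combination of the incidence vectors of the circuits of `M`. -/
def InLat (M : Matroid α) (p : α → ℤ) : Prop :=
  ∃ c : Finset α → ℤ, (∀ C, c C ≠ 0 → M.IsCircuit (C : Set α)) ∧
    ∀ x, p x = ∑ C : Finset α, if x ∈ C then c C else 0

/-- `p` is a nonnegative integer combination of the incidence vectors of the circuits of `M`. -/
def InIntCone (M : Matroid α) (p : α → ℤ) : Prop :=
  ∃ c : Finset α → ℤ, (∀ C, 0 ≤ c C) ∧ (∀ C, c C ≠ 0 → M.IsCircuit (C : Set α)) ∧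
    ∀ x, p x = ∑ C : Finset α, if x ∈ C then c C else 0

/-- The circuits of `M` form a Hilbert basis. -/
def HilbertBasis (M : Matroid α) : Prop :=
  ∀ p : α → ℤ, InCone M p → InLat M p → InIntCone M p

/-- `e` and `f` can be exchanged in a circuit: there is a set `X`, which contains neither of them,
such that `X ∪ {e}` and `X ∪ {f}` are circuits. -/
def Exch (M : Matroid α) (e f : α) : Prop :=
  ∃ X : Finset α, e ∉ X ∧ f ∉ X ∧ M.IsCircuit ((insert e X : Finset α) : Set α) ∧
    M.IsCircuit ((insert f X : Finset α) : Set α)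

/-! ### The lattice -/

/-- The lattice of the circuits as a subgroup. -/
def lat (M : Matroid α) : AddSubgroup (α → ℤ) where
  carrier := {p | InLat M p}
  zero_mem' := ⟨fun _ => 0, fun C h => (h rfl).elim, fun x => by simp⟩
  add_mem' := by
    rintro p q ⟨c, hc, hp⟩ ⟨d, hd, hq⟩
    refine ⟨fun C => c C + d C, fun C h => ?_, fun x => ?_⟩
    · by_cases h0 : c C = 0
      · exact hd C fun h1 => h (by simp [h0, h1])
      · exact hc C h0
    · rw [Pi.add_apply, hp x, hq x, ← sum_add_distrib]
      refine sum_congr rfl fun C _ => ?_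
      split_ifs <;> simp
  neg_mem' := by
    rintro p ⟨c, hc, hp⟩
    refine ⟨fun C => - c C, fun C h => hc C fun h0 => h (by simp [h0]), fun x => ?_⟩
    rw [Pi.neg_apply, hp x, ← sum_neg_distrib]
    refine sum_congr rfl fun C _ => ?_
    split_ifs <;> simp

/-- The incidence vector of a set. -/
def ind (C : Finset α) : α → ℤ := fun x => if x ∈ C then 1 else 0

theorem ind_mem {M : Matroid α} {C : Finset α} (hC : M.IsCircuit (C : Set α)) : ind C ∈ lat M := by
  refine ⟨fun D => if D = C then 1 else 0, fun D hD => ?_, fun x => ?_⟩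
  · by_contra h
    apply hD
    show (if D = C then (1 : ℤ) else 0) = 0
    rw [if_neg]
    rintro rfl
    exact h hC
  · rw [sum_eq_single C]
    · simp [ind]
    · intro D _ hD
      simp [hD]
    · intro h
      exact (h (mem_univ C)).elim

/-- The unit vectors. -/
def dl (e : α) : α → ℤ := ind {e}

theorem ind_insert {e : α} {X : Finset α} (he : e ∉ X) : ind (insert e X) = dl e + ind X := by
  funext x
  simp only [dl, ind, Pi.add_apply, mem_insert, mem_singleton]
  by_cases h : x = e
  · subst h; simp [he]
  · simp [h]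

theorem ind_eq_sum (S : Finset α) : ind S = ∑ e ∈ S, dl e := by
  induction S using Finset.induction_on with
  | empty =>
    funext x
    simp [ind]
  | insert e S he ih => rw [ind_insert he, sum_insert he, ih]

theorem exch_mem {M : Matroid α} {e f : α} (h : Exch M e f) : dl e - dl f ∈ lat M := by
  obtain ⟨X, he, hf, hCe, hCf⟩ := h
  have := (lat M).sub_mem (ind_mem hCe) (ind_mem hCf)
  rw [ind_insert he, ind_insert hf] at this
  simpa using this

theorem chain_mem {M : Matroid α} {e f : α} (h : Relation.ReflTransGen (Exch M) e f) :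
    dl e - dl f ∈ lat M := by
  induction h with
  | refl => rw [sub_self]; exact (lat M).zero_mem
  | tail _ h ih =>
    have := (lat M).add_mem ih (exch_mem h)
    simpa using this

/-- If all elements of circuits are linked by exchanges, there is a common divisor `g > 0` of the sizes
of the circuits such that the lattice contains the vectors `g δ_e`. -/
theorem exists_gen {M : Matroid α} (hcirc : ∃ C : Finset α, M.IsCircuit (C : Set α))
    (hlink : ∀ e f : α, (∃ C : Finset α, e ∈ C ∧ M.IsCircuit (C : Set α)) →
      (∃ C : Finset α, f ∈ C ∧ M.IsCircuit (C : Set α)) → Relation.ReflTransGen (Exch M) e f) :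
    ∃ g : ℕ, 0 < g ∧ (∀ C : Finset α, M.IsCircuit (C : Set α) → g ∣ C.card) ∧
      ∀ e : α, (∃ C : Finset α, e ∈ C ∧ M.IsCircuit (C : Set α)) → (g : ℤ) • dl e ∈ lat M := by
  obtain ⟨C₀, hC₀⟩ := hcirc
  obtain ⟨e₀, he₀⟩ := hC₀.nonempty
  have he₀' : e₀ ∈ C₀ := mem_coe.1 he₀
  -- the integers `n` with `n δ_e` in the lattice
  let N : AddSubgroup ℤ := (lat M).comap ((zmultiplesHom (α → ℤ)) (dl e₀))
  have hN : ∀ n : ℤ, n ∈ N ↔ n • dl e₀ ∈ lat M := fun n => by
    simp only [N, AddSubgroup.mem_comap, zmultiplesHom_apply]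
  have hC : ∀ C : Finset α, M.IsCircuit (C : Set α) → (C.card : ℤ) ∈ N := by
    intro C hC
    rw [hN]
    have h1 : ∑ f ∈ C, (dl e₀ - dl f) ∈ lat M :=
      (lat M).sum_mem fun f hf => chain_mem (hlink e₀ f ⟨C₀, he₀', hC₀⟩ ⟨C, hf, hC⟩)
    rw [sum_sub_distrib, ← ind_eq_sum, sum_const] at h1
    have h2 := (lat M).add_mem h1 (ind_mem hC)
    rw [sub_add_cancel] at h2
    simpa using h2
  obtain ⟨g, hg⟩ := Int.subgroup_cyclic N
  have hdvd : ∀ n : ℤ, n ∈ N ↔ g ∣ n := fun n => by
    rw [hg, AddSubgroup.mem_closure_singleton]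
    constructor
    · rintro ⟨k, rfl⟩
      exact ⟨k, by rw [smul_eq_mul, mul_comm]⟩
    · rintro ⟨k, rfl⟩
      exact ⟨k, by rw [smul_eq_mul, mul_comm]⟩
  have hcard : ∀ C : Finset α, M.IsCircuit (C : Set α) → g.natAbs ∣ C.card := fun C h => by
    have := (hdvd _).1 (hC C h)
    exact (Int.natAbs_dvd_natAbs.2 this).trans (by simp)
  refine ⟨g.natAbs, ?_, hcard, fun e he => ?_⟩
  · rw [Nat.pos_iff_ne_zero]
    intro h0
    have := hcard C₀ hC₀
    rw [h0, zero_dvd_iff, card_eq_zero] at this
    rw [this] at he₀'
    exact notMem_empty _ he₀'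
  · have h1 : ((g.natAbs : ℕ) : ℤ) ∈ N := by
      rw [hdvd]
      exact Int.dvd_natCast.2 (dvd_refl _)
    rw [hN] at h1
    have h2 := (lat M).zsmul_mem (chain_mem (hlink e e₀ he ⟨C₀, he₀', hC₀⟩)) (g.natAbs : ℤ)
    rw [zsmul_sub] at h2
    have h3 := (lat M).add_mem h2 h1
    rwa [sub_add_cancel] at h3

/-! ### Sets of nullity two -/

section null

variable {M : Matroid α} {X : Finset α} {e f : α} (he : e ∉ X) (hf : f ∉ X) (hef : e ≠ f)
  (hCe : M.IsCircuit ((insert e X : Finset α) : Set α))
  (hCf : M.IsCircuit ((insert f X : Finset α) : Set α))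

include hef hCe hCf he hf in
/-- Every point of `X ∪ {e, f}` is missed by exactly one circuit inside this set. -/
theorem unique_circuit (y : α) (hy : y ∈ insert e (insert f X)) :
    ∃ D : Finset α, (M.IsCircuit (D : Set α) ∧ D ⊆ insert e (insert f X) ∧ y ∉ D) ∧
      ∀ D' : Finset α, M.IsCircuit (D' : Set α) → D' ⊆ insert e (insert f X) → y ∉ D' →
        D' = D := by
  rw [mem_insert, mem_insert] at hy
  have hsub : ∀ {A B : Finset α}, M.IsCircuit (A : Set α) → M.IsCircuit (B : Set α) → A ⊆ B →
      A = B := by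
    intro A B hA hB h
    exact Finset.coe_injective (hB.eq_of_superset_isCircuit hA (Finset.coe_subset.2 h)).symm
  rcases hy with rfl | rfl | hy
  · refine ⟨insert f X, ⟨hCf, subset_insert _ _, ?_⟩, fun D' h1 h2 h3 => hsub h1 hCf ?_⟩
    · rw [mem_insert, not_or]
      exact ⟨hef, he⟩
    · intro x hx
      rcases mem_insert.1 (h2 hx) with rfl | h
      · exact (h3 hx).elim
      · exact h
  · refine ⟨insert e X, ⟨hCe, ?_, ?_⟩, fun D' h1 h2 h3 => hsub h1 hCe ?_⟩
    · exact insert_subset_insert _ (subset_insert _ _)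
    · rw [mem_insert, not_or]
      exact ⟨hef.symm, hf⟩
    · intro x hx
      rcases mem_insert.1 (h2 hx) with rfl | h
      · exact mem_insert_self _ _
      · rcases mem_insert.1 h with rfl | h
        · exact (h3 hx).elim
        · exact mem_insert_of_mem h
  · -- elimination of `y`
    have hne : ((insert e X : Finset α) : Set α) ≠ ((insert f X : Finset α) : Set α) := by
      intro h
      have h1 : e ∈ insert f X := by
        have : e ∈ ((insert f X : Finset α) : Set α) := by
          rw [← h]
          exact mem_coe.2 (mem_insert_self _ _)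
        exact mem_coe.1 this
      rw [mem_insert] at h1
      exact h1.elim hef he
    obtain ⟨C, hCs, hC⟩ := hCe.elimination hCf hne y
    have hfin : C.Finite := Set.toFinite C
    refine ⟨hfin.toFinset, ⟨by rwa [hfin.coe_toFinset], ?_, ?_⟩, ?_⟩
    · intro x hx
      have := hCs (hfin.mem_toFinset.1 hx)
      simp only [coe_insert, Set.mem_sdiff, Set.mem_union, Set.mem_insert_iff, mem_coe,
        Set.mem_singleton_iff] at this
      simp only [mem_insert]
      tauto
    · intro hyC
      exact (hCs (hfin.mem_toFinset.1 hyC)).2 rfl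
    · intro D' h1 h2 h3
      -- the independent set
      by_contra hcon
      have hind : M.Indep (((insert e X : Finset α) : Set α) \ {y}) :=
        hCe.sdiff_singleton_indep (mem_coe.2 (mem_insert_of_mem hy))
      have hne' : (D' : Set α) ≠ C := by
        intro h
        apply hcon
        apply Finset.coe_injective
        rw [hfin.coe_toFinset]
        exact h
      obtain ⟨C', hCs', hC'⟩ := h1.elimination hC hne' f
      refine hC'.not_indep (hind.subset fun x hx => ?_)
      have hx' := hCs' hx
      simp only [Set.mem_sdiff, Set.mem_union, Set.mem_singleton_iff] at hx'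
      obtain ⟨hx1, hxf⟩ := hx'
      simp only [coe_insert, Set.mem_sdiff, Set.mem_insert_iff, mem_coe, Set.mem_singleton_iff]
      rcases hx1 with hx1 | hx1
      · have := h2 (mem_coe.1 hx1)
        rw [mem_insert, mem_insert] at this
        refine ⟨?_, fun h => h3 (h ▸ mem_coe.1 hx1)⟩
        rcases this with h | h | h
        · exact Or.inl h
        · exact (hxf h).elim
        · exact Or.inr h
      · have := hCs hx1
        simp only [coe_insert, Set.mem_sdiff, Set.mem_union, Set.mem_insert_iff, mem_coe,
          Set.mem_singleton_iff] at this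
        refine ⟨?_, this.2⟩
        tauto

/-- The circuits inside a set. -/
noncomputable def circs (M : Matroid α) (S : Finset α) : Finset (Finset α) := by
  classical exact univ.filter fun D => M.IsCircuit (D : Set α) ∧ D ⊆ S

theorem mem_circs {M : Matroid α} {S D : Finset α} :
    D ∈ circs M S ↔ M.IsCircuit (D : Set α) ∧ D ⊆ S := by
  simp [circs]

include hef hCe hCf he hf in
theorem three_le (hX : X.Nonempty) : 3 ≤ (circs M (insert e (insert f X))).card := by
  obtain ⟨y, hy⟩ := hX
  have hyS : y ∈ insert e (insert f X) := by simp [hy]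
  obtain ⟨D, ⟨hD1, hD2, hD3⟩, -⟩ := unique_circuit he hf hef hCe hCf y hyS
  have hDF : D ∈ circs M (insert e (insert f X)) := mem_circs.2 ⟨hD1, hD2⟩
  have hEF : insert e X ∈ circs M (insert e (insert f X)) :=
    mem_circs.2 ⟨hCe, insert_subset_insert _ (subset_insert _ _)⟩
  have hFF : insert f X ∈ circs M (insert e (insert f X)) :=
    mem_circs.2 ⟨hCf, subset_insert _ _⟩
  have hne1 : insert e X ≠ insert f X := by
    intro h
    have h1 : e ∈ insert f X := by rw [← h]; exact mem_insert_self _ _
    rw [mem_insert] at h1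
    exact h1.elim hef he
  have hne2 : D ≠ insert e X := fun h => hD3 (h ▸ mem_insert_of_mem hy)
  have hne3 : D ≠ insert f X := fun h => hD3 (h ▸ mem_insert_of_mem hy)
  have : ({D, insert e X, insert f X} : Finset (Finset α)).card = 3 := by
    rw [card_insert_of_notMem, card_insert_of_notMem, card_singleton]
    · simpa using hne1
    · simp [hne2, hne3]
  rw [← this]
  refine card_le_card ?_
  intro C hC
  simp only [mem_insert, mem_singleton] at hC
  rcases hC with rfl | rfl | rfl <;> assumption

include hef hCe hCf he hf in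
/-- The sum over the circuits containing a point. -/
theorem sum_circs {R : Type} [CommRing R] (c : Finset α → R) {x : α}
    (hx : x ∈ insert e (insert f X)) {D : Finset α} (hD : D ∈ circs M (insert e (insert f X)))
    (hxD : x ∉ D) :
    ∑ C ∈ circs M (insert e (insert f X)), (if x ∈ C then c C else 0) + c D =
      ∑ C ∈ circs M (insert e (insert f X)), c C := by
  obtain ⟨D', -, hD4⟩ := unique_circuit he hf hef hCe hCf x hx
  have hDD : D = D' := hD4 D (mem_circs.1 hD).1 (mem_circs.1 hD).2 hxD
  have h1 : ∑ C ∈ circs M (insert e (insert f X)), (if x ∈ C then 0 else c C) = c D := by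
    rw [sum_eq_single_of_mem D hD]
    · rw [if_neg hxD]
    · intro C hC hne
      rw [if_pos]
      by_contra hxC
      exact hne ((hD4 C (mem_circs.1 hC).1 (mem_circs.1 hC).2 hxC).trans hDD.symm)
  rw [← h1, ← sum_add_distrib]
  refine sum_congr rfl fun C _ => ?_
  split_ifs <;> simp

include hef hCe hCf he hf in
theorem exists_miss {x : α} (hx : x ∈ insert e (insert f X)) :
    ∃ D ∈ circs M (insert e (insert f X)), x ∉ D := by
  obtain ⟨D, ⟨h1, h2, h3⟩, -⟩ := unique_circuit he hf hef hCe hCf x hx
  exact ⟨D, mem_circs.2 ⟨h1, h2⟩, h3⟩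

include hef hCe hCf he hf in
/-- The multiples of the incidence vector of `X ∪ {e, f}` are in the cone of the circuits. -/
theorem cone_mem (hX : X.Nonempty) (t : ℕ) :
    InCone M ((t : ℤ) • ind (insert e (insert f X))) := by
  have h3 := three_le he hf hef hCe hCf hX
  set F := circs M (insert e (insert f X)) with hF
  have hpos : (0 : ℚ) < (F.card : ℚ) - 1 := by
    have : (3 : ℚ) ≤ F.card := by exact_mod_cast h3
    linarith
  refine ⟨fun C => if C ∈ F then (t : ℚ) / ((F.card : ℚ) - 1) else 0, fun C => ?_, fun C hC => ?_,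
    fun x => ?_⟩
  · show (0 : ℚ) ≤ if C ∈ F then (t : ℚ) / ((F.card : ℚ) - 1) else 0
    split_ifs
    · positivity
    · exact le_rfl
  · by_contra hcon
    apply hC
    show (if C ∈ F then (t : ℚ) / ((F.card : ℚ) - 1) else 0) = 0
    rw [if_neg fun h => hcon (mem_circs.1 h).1]
  · have h4 : ∑ C : Finset α, (if x ∈ C then (if C ∈ F then (t : ℚ) / ((F.card : ℚ) - 1) else 0)
        else 0) = ∑ C ∈ F, (if x ∈ C then (t : ℚ) / ((F.card : ℚ) - 1) else 0) := by
      rw [← sum_filter_add_sum_filter_not univ (fun C => C ∈ F), filter_mem_eq_inter,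
        univ_inter]
      rw [sum_eq_zero (s := filter (fun C => C ∉ F) univ), add_zero]
      · refine sum_congr rfl fun C hC => ?_
        rw [if_pos hC]
      · intro C hC
        rw [if_neg (mem_filter.1 hC).2]
        split_ifs <;> rfl
    rw [h4]
    by_cases hx : x ∈ insert e (insert f X)
    · obtain ⟨D, hD, hxD⟩ := exists_miss he hf hef hCe hCf hx
      have h5 := sum_circs he hf hef hCe hCf (fun _ => (t : ℚ) / ((F.card : ℚ) - 1)) hx hD hxD
      rw [← hF, sum_const, nsmul_eq_mul] at h5
      have h6 := eq_sub_of_add_eq h5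
      rw [h6]
      simp only [ind, Pi.smul_apply, hx, if_true, smul_eq_mul, mul_one, Int.cast_natCast]
      field_simp
    · rw [sum_eq_zero]
      · simp only [ind, Pi.smul_apply, hx, if_false, smul_eq_mul, mul_zero, Int.cast_zero]
      · intro C hC
        rw [if_neg fun h => hx ((mem_circs.1 hC).2 h)]

include hef hCe hCf he hf in
/-- If `t` times the incidence vector of `X ∪ {e, f}` is a sum of circuits, then `t` is divisible by
the number of circuits inside this set minus one. -/
theorem dvd_of_intCone (t : ℕ) (h : InIntCone M ((t : ℤ) • ind (insert e (insert f X)))) :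
    (((circs M (insert e (insert f X))).card : ℤ) - 1) ∣ t := by
  obtain ⟨c, hc0, hc1, hc2⟩ := h
  set S : Finset α := insert e (insert f X) with hS
  set F := circs M S with hF
  have hout : ∀ C, C ∉ F → c C = 0 := by
    intro C hC
    by_contra h
    have h1 := hc1 C h
    have h2 : ¬ C ⊆ S := fun h2 => hC (mem_circs.2 ⟨h1, h2⟩)
    obtain ⟨x, hxC, hxS⟩ := not_subset.1 h2
    have h3 := hc2 x
    have h4 : ((t : ℤ) • ind S) x = 0 := by simp [ind, hxS]
    rw [h4] at h3
    have h5 := (sum_eq_zero_iff_of_nonneg (fun C _ => by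
      split_ifs
      · exact hc0 C
      · exact le_rfl)).1 h3.symm C (mem_univ C)
    rw [if_pos hxC] at h5
    exact h h5
  have hval : ∀ D ∈ F, (t : ℤ) + c D = ∑ C ∈ F, c C := by
    intro D hD
    obtain ⟨x, hxS, hxD⟩ : ∃ x ∈ S, x ∉ D := by
      by_contra hcon
      push Not at hcon
      have hDS : D = S := Subset.antisymm (mem_circs.1 hD).2 hcon
      have h1 := (mem_circs.1 hD).1
      rw [hDS] at h1
      have h2 : insert e X ⊆ S := insert_subset_insert _ (subset_insert _ _)
      have h3 := h1.eq_of_superset_isCircuit hCe (Finset.coe_subset.2 h2)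
      have h4 : f ∈ insert e X := by
        rw [← Finset.coe_injective h3, hS]
        simp
      rw [mem_insert] at h4
      exact h4.elim (fun h => hef h.symm) hf
    have h5 := sum_circs he hf hef hCe hCf c hxS hD hxD
    have h6 : ∑ C : Finset α, (if x ∈ C then c C else 0) =
        ∑ C ∈ F, (if x ∈ C then c C else 0) := by
      symm
      refine sum_subset (subset_univ F) fun C _ hC => ?_
      rw [hout C hC]
      split_ifs <;> rfl
    have h7 := hc2 x
    rw [h6] at h7
    have h8 : ((t : ℤ) • ind S) x = t := by simp [ind, hxS]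
    rw [h8] at h7
    rw [h7]
    exact h5
  -- all the coefficients are equal
  obtain ⟨D, hD, -⟩ := exists_miss he hf hef hCe hCf (mem_insert_self e (insert f X))
  have hall : ∀ C ∈ F, c C = c D := by
    intro C hC
    have h1 := hval C hC
    have h2 := hval D hD
    linarith
  have htot := hval D hD
  rw [sum_congr rfl hall, sum_const, nsmul_eq_mul] at htot
  exact ⟨c D, by linarith⟩

include hef hCe hCf he hf in
/-- Double counting: a common divisor of the sizes of the circuits divides the number of circuits
inside `X ∪ {e, f}` minus one. -/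
theorem dvd_card (g : ℕ) (hg : ∀ C : Finset α, M.IsCircuit (C : Set α) → g ∣ C.card) :
    (g : ℤ) ∣ ((circs M (insert e (insert f X))).card : ℤ) - 1 := by
  set S : Finset α := insert e (insert f X) with hS
  set F := circs M S with hF
  have h1 : ∑ C ∈ F, (C.card : ℤ) = S.card * ((F.card : ℤ) - 1) := by
    have h2 : ∀ C ∈ F, (C.card : ℤ) = ∑ x ∈ S, if x ∈ C then (1 : ℤ) else 0 := by
      intro C hC
      rw [sum_ite_mem, inter_eq_right.2 (mem_circs.1 hC).2]
      simp
    rw [sum_congr rfl h2, sum_comm]
    have h3 : ∀ x ∈ S, ∑ C ∈ F, (if x ∈ C then (1 : ℤ) else 0) = (F.card : ℤ) - 1 := by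
      intro x hx
      obtain ⟨D, hD, hxD⟩ := exists_miss he hf hef hCe hCf hx
      have h5 := sum_circs he hf hef hCe hCf (fun _ => (1 : ℤ)) hx hD hxD
      rw [← hS, ← hF, sum_const, nsmul_eq_mul, mul_one] at h5
      linarith
    rw [sum_congr rfl h3, sum_const, nsmul_eq_mul]
  have h4 : (g : ℤ) ∣ ∑ C ∈ F, (C.card : ℤ) :=
    dvd_sum fun C hC => Int.natCast_dvd_natCast.2 (hg C (mem_circs.1 hC).1)
  have h5 : (S.card : ℤ) = (insert e X : Finset α).card + 1 := by
    have : S.card = (insert e X : Finset α).card + 1 := by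
      rw [hS, card_insert_of_notMem he, card_insert_of_notMem, card_insert_of_notMem hf]
      rw [mem_insert, not_or]
      exact ⟨hef, he⟩
    exact_mod_cast this
  have h6 : (g : ℤ) ∣ ((insert e X : Finset α).card : ℤ) := Int.natCast_dvd_natCast.2 (hg _ hCe)
  rw [h1, h5, add_mul, one_mul] at h4
  exact (dvd_add_right (h6.mul_right _)).1 h4

end null

/-- Let `M` be a matroid without loops and with at least one circuit, in which all the elements of
circuits are linked by exchanges. If the circuits form a Hilbert basis, then there is `g ≥ 2` which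
divides the sizes of all circuits, such that all the sets `X ∪ {e, f}` with circuits `X ∪ {e}`,
`X ∪ {f}` contain exactly `g + 1` circuits. -/
theorem main (M : Matroid α) (hloop : ∀ e : α, ¬ M.IsCircuit {e})
    (hcirc : ∃ C : Finset α, M.IsCircuit (C : Set α))
    (hlink : ∀ e f : α, (∃ C : Finset α, e ∈ C ∧ M.IsCircuit (C : Set α)) →
      (∃ C : Finset α, f ∈ C ∧ M.IsCircuit (C : Set α)) → Relation.ReflTransGen (Exch M) e f)
    (hHB : HilbertBasis M) :
    ∃ g : ℕ, 2 ≤ g ∧ (∀ C : Finset α, M.IsCircuit (C : Set α) → g ∣ C.card) ∧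
      ∀ (e f : α) (X : Finset α), e ≠ f → e ∉ X → f ∉ X →
        M.IsCircuit ((insert e X : Finset α) : Set α) →
        M.IsCircuit ((insert f X : Finset α) : Set α) →
        (circs M (insert e (insert f X))).card = g + 1 := by
  obtain ⟨g, hg0, hg, hgl⟩ := exists_gen hcirc hlink
  have key : ∀ (e f : α) (X : Finset α), e ≠ f → e ∉ X → f ∉ X →
      M.IsCircuit ((insert e X : Finset α) : Set α) →
      M.IsCircuit ((insert f X : Finset α) : Set α) →
      3 ≤ (circs M (insert e (insert f X))).card ∧
        (circs M (insert e (insert f X))).card = g + 1 := by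
    intro a b X hab haX hbX hCa hCb
    have hX : X.Nonempty := by
      rw [nonempty_iff_ne_empty]
      rintro rfl
      apply hloop a
      simpa using hCa
    have h3 := three_le haX hbX hab hCa hCb hX
    refine ⟨h3, ?_⟩
    have hmem : (g : ℤ) • ind (insert a (insert b X)) ∈ lat M := by
      rw [ind_eq_sum, smul_sum]
      refine (lat M).sum_mem fun x hx => hgl x ?_
      rw [mem_insert, mem_insert] at hx
      rcases hx with rfl | rfl | hx
      · exact ⟨_, mem_insert_self _ _, hCa⟩
      · exact ⟨_, mem_insert_self _ _, hCb⟩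
      · exact ⟨_, mem_insert_of_mem hx, hCa⟩
    have h4 := dvd_of_intCone haX hbX hab hCa hCb g
      (hHB _ (cone_mem haX hbX hab hCa hCb hX g) hmem)
    have h5 := dvd_card haX hbX hab hCa hCb g hg
    have h6 : (0 : ℤ) ≤ ((circs M (insert a (insert b X))).card : ℤ) - 1 := by
      have : (3 : ℤ) ≤ (circs M (insert a (insert b X))).card := by exact_mod_cast h3
      linarith
    have h7 := Int.dvd_antisymm h6 (by positivity) h4 h5
    have h8 : ((circs M (insert a (insert b X))).card : ℤ) = g + 1 := by linarith
    exact_mod_cast h8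
  refine ⟨g, ?_, hg, fun e f X h1 h2 h3 h4 h5 => (key e f X h1 h2 h3 h4 h5).2⟩
  -- there is a nontrivial exchange
  obtain ⟨C₀, hC₀⟩ := hcirc
  obtain ⟨e, he⟩ := hC₀.nonempty
  have he' : e ∈ C₀ := mem_coe.1 he
  obtain ⟨f, hf, hfe⟩ : ∃ f ∈ C₀, f ≠ e := by
    by_contra h
    push Not at h
    apply hloop e
    have : C₀ = {e} := by
      ext x
      rw [mem_singleton]
      exact ⟨fun hx => h x hx, fun hx => hx ▸ he'⟩
    rw [this, coe_singleton] at hC₀
    exact hC₀
  have hchain := hlink e f ⟨C₀, he', hC₀⟩ ⟨C₀, hf, hC₀⟩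
  obtain ⟨a, b, hab, X, haX, hbX, hCa, hCb⟩ : ∃ a b, a ≠ b ∧ Exch M a b := by
    by_contra h
    push Not at h
    have : ∀ x, Relation.ReflTransGen (Exch M) e x → x = e := by
      intro x hx
      induction hx with
      | refl => rfl
      | @tail b c _ h2 ih =>
        by_contra hne
        exact h b c (fun h3 => hne (h3 ▸ ih)) h2
    exact hfe (this f hchain)
  have := key a b X hab haX hbX hCa hCb
  omega

end Pool.Agent.Q114.HB
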