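import Pool.Agent.Q114.HB.Basic

set_option autoImplicit false
set_option linter.unusedSectionVars false

/-!
A sufficient condition: the circuits are, up to a linear bijection of their lattice, the sets of `k`
elements.
-/

namespace Pool.Agent.Q114.HB

open Finset

variable {α : Type} [Fintype α] [DecidableEq α]

theorem general_aux {M : Matroid α} {L : Finset α} {k : ℕ}
    (h2 : ∀ T ⊆ L, T.card = k → ∃ C : Finset α, M.IsCircuit (C : Set α) ∧ C ∩ L = T)
    (h3 : ∀ p : α → ℤ, p ∈ lat M → (∀ x ∈ L, p x = 0) → ∀ x, p x = 0) (m : ℕ) :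
    ∀ p : α → ℤ, p ∈ lat M → (∀ x ∈ L, 0 ≤ p x) → (∀ x ∈ L, p x ≤ m) →
      ∑ x ∈ L, p x = k * m → InIntCone M p := by
  induction m with
  | zero =>
    intro p hp h0 h1 _
    refine ⟨fun _ => 0, fun _ => le_rfl, fun C h => (h rfl).elim, fun x => ?_⟩
    have := h3 p hp (fun y hy => by
      have e1 := h1 y hy
      have e2 := h0 y hy
      simp only [Nat.cast_zero] at e1
      omega) x
    rw [this]
    simp
  | succ m ih =>
    intro p hp h0 h1 hs
    have hm : (0 : ℤ) < (m : ℤ) + 1 := by positivity
    let A : Finset α := L.filter fun x => p x = m + 1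
    let B : Finset α := L.filter fun x => p x ≠ 0
    have hAB : A ⊆ B := by
      intro x hx
      have hx' := (mem_filter.1 hx).2
      exact mem_filter.2 ⟨(mem_filter.1 hx).1, by omega⟩
    have hA : A.card ≤ k := by
      have e1 : (A.card : ℤ) * (m + 1) ≤ ∑ x ∈ L, p x := by
        calc (A.card : ℤ) * (m + 1) = ∑ x ∈ A, p x := by
              rw [sum_congr rfl fun x hx => (mem_filter.1 hx).2, sum_const, nsmul_eq_mul]
          _ ≤ ∑ x ∈ L, p x := sum_le_sum_of_subset_of_nonneg (filter_subset _ _)
              fun x hx _ => h0 x hx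
      rw [hs] at e1
      push_cast at e1
      have := le_of_mul_le_mul_right e1 hm
      exact_mod_cast this
    have hB : k ≤ B.card := by
      have e1 : ∑ x ∈ L, p x ≤ (B.card : ℤ) * (m + 1) := by
        calc ∑ x ∈ L, p x = ∑ x ∈ B, p x := by
              symm
              refine sum_subset (filter_subset _ _) fun x hxL hx => ?_
              by_contra h
              exact hx (mem_filter.2 ⟨hxL, h⟩)
          _ ≤ ∑ x ∈ B, ((m : ℤ) + 1) := sum_le_sum fun x hx => by
              have := h1 x (mem_filter.1 hx).1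
              push_cast at this
              exact this
          _ = (B.card : ℤ) * (m + 1) := by rw [sum_const, nsmul_eq_mul]
      rw [hs] at e1
      push_cast at e1
      have := le_of_mul_le_mul_right e1 hm
      exact_mod_cast this
    obtain ⟨T, hAT, hTB, hT⟩ := exists_subsuperset_card_eq hAB hA hB
    have hTL : T ⊆ L := hTB.trans (filter_subset _ _)
    obtain ⟨D, hD, hDT⟩ := h2 T hTL hT
    have hDx : ∀ x ∈ L, (x ∈ D ↔ x ∈ T) := by
      intro x hx
      rw [← hDT, mem_inter]
      exact ⟨fun h => ⟨h, hx⟩, fun h => h.1⟩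
    obtain ⟨c, hc0, hc1, hc2⟩ := ih (p - ind D) ((lat M).sub_mem hp (ind_mem hD))
      (fun x hx => by
        have e2 := h0 x hx
        show (0 : ℤ) ≤ p x - if x ∈ D then 1 else 0
        split_ifs with hxD
        · have e3 := (mem_filter.1 (hTB ((hDx x hx).1 hxD))).2
          omega
        · omega) (fun x hx => by
        have e2 := h1 x hx
        push_cast at e2
        show p x - (if x ∈ D then 1 else 0) ≤ (m : ℤ)
        split_ifs with hxD
        · omega
        · have e3 : p x ≠ m + 1 := fun h =>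
            hxD ((hDx x hx).2 (hAT (mem_filter.2 ⟨hx, h⟩)))
          omega) (by
        have e4 : ∑ x ∈ L, (p - ind D) x = ∑ x ∈ L, p x - ∑ x ∈ L, (if x ∈ T then (1 : ℤ) else 0) := by
          rw [← sum_sub_distrib]
          refine sum_congr rfl fun x hx => ?_
          show p x - (if x ∈ D then 1 else 0) = _
          simp only [hDx x hx]
        rw [e4, hs]
        have : ∑ x ∈ L, (if x ∈ T then (1 : ℤ) else 0) = k := by
          rw [sum_ite_mem, inter_eq_right.2 hTL, sum_const, hT]
          simp
        rw [this]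
        push_cast
        ring)
    refine ⟨fun C => c C + if C = D then 1 else 0, fun C => ?_, fun C hC => ?_, fun x => ?_⟩
    · have := hc0 C
      show (0 : ℤ) ≤ c C + if C = D then 1 else 0
      split_ifs <;> omega
    · by_cases h : c C = 0
      · have e2 : C = D := by
          by_contra h3
          apply hC
          show c C + (if C = D then 1 else 0) = 0
          rw [h, if_neg h3, add_zero]
        rw [e2]
        exact hD
      · exact hc1 C h
    · have e2 := hc2 x
      have e3 : ∑ C : Finset α, (if x ∈ C then c C + (if C = D then (1 : ℤ) else 0) else 0) =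
          ∑ C : Finset α, (if x ∈ C then c C else 0) +
            ∑ C : Finset α, (if C = D then (if x ∈ C then (1 : ℤ) else 0) else 0) := by
        rw [← sum_add_distrib]
        refine sum_congr rfl fun C _ => ?_
        split_ifs <;> simp
      rw [e3, ← e2, sum_ite_eq' univ D, if_pos (mem_univ _)]
      show p x = p x - (if x ∈ D then 1 else 0) + (if x ∈ D then 1 else 0)
      ring

/-- If all circuits have `k` elements in `L`, every set of `k` elements of `L` is the trace of a
circuit, and the vectors of the lattice are determined by their restrictions to `L`, then the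
circuits form a Hilbert basis. -/
theorem hilbert_general {M : Matroid α} {L : Finset α} {k : ℕ} (hk : 0 < k)
    (h1 : ∀ C : Finset α, M.IsCircuit (C : Set α) → (C ∩ L).card = k)
    (h2 : ∀ T ⊆ L, T.card = k → ∃ C : Finset α, M.IsCircuit (C : Set α) ∧ C ∩ L = T)
    (h3 : ∀ p : α → ℤ, p ∈ lat M → (∀ x ∈ L, p x = 0) → ∀ x, p x = 0) : HilbertBasis M := by
  rintro p ⟨c, hc0, hc1, hc2⟩ ⟨d, hd1, hd2⟩
  have hsum : ∀ (R : Type) [CommRing R] (c : Finset α → R),
      (∀ C, c C ≠ 0 → M.IsCircuit (C : Set α)) →
      ∑ x ∈ L, ∑ C : Finset α, (if x ∈ C then c C else 0) = k * ∑ C : Finset α, c C := by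
    intro R _ c hc
    rw [sum_comm, mul_sum]
    refine sum_congr rfl fun C _ => ?_
    rw [sum_ite_mem, sum_const, nsmul_eq_mul]
    by_cases h : c C = 0
    · rw [h, mul_zero, mul_zero]
    · rw [inter_comm, h1 C (hc C h)]
  have e1 : ∑ x ∈ L, p x = k * ∑ C : Finset α, d C := by
    rw [← hsum ℤ d hd1]
    exact sum_congr rfl fun x _ => hd2 x
  have e2 : ((∑ x ∈ L, p x : ℤ) : ℚ) = k * ∑ C : Finset α, c C := by
    rw [← hsum ℚ c hc1]
    push_cast
    exact sum_congr rfl fun x _ => hc2 x
  have e3 : ∀ x, 0 ≤ p x := by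
    intro x
    have : (0 : ℚ) ≤ p x := by
      rw [hc2 x]
      refine sum_nonneg fun C _ => ?_
      split_ifs
      · exact hc0 C
      · exact le_rfl
    exact_mod_cast this
  have e4 : ((∑ C : Finset α, d C : ℤ) : ℚ) = ∑ C : Finset α, c C := by
    have h5 : (k : ℚ) ≠ 0 := by positivity
    apply mul_left_cancel₀ h5
    rw [← e2, e1]
    push_cast
    rfl
  have e5 : ∀ x, p x ≤ ∑ C : Finset α, d C := by
    intro x
    have : (p x : ℚ) ≤ ((∑ C : Finset α, d C : ℤ) : ℚ) := by
      rw [e4, hc2 x]
      refine sum_le_sum fun C _ => ?_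
      split_ifs
      · exact le_rfl
      · exact hc0 C
    exact_mod_cast this
  have e6 : 0 ≤ ∑ C : Finset α, d C := by
    have : (0 : ℚ) ≤ ((∑ C : Finset α, d C : ℤ) : ℚ) := by
      rw [e4]
      exact sum_nonneg fun C _ => hc0 C
    exact_mod_cast this
  obtain ⟨m, hm⟩ := Int.eq_ofNat_of_zero_le e6
  refine general_aux h2 h3 m p ⟨d, hd1, hd2⟩ (fun x _ => e3 x) (fun x _ => ?_) ?_
  · rw [← hm]
    exact e5 x
  · rw [e1, hm]

/-- The uniform matroids with a coloop. -/
theorem hilbert_coloop {M : Matroid α} {k : ℕ} (hk : 0 < k) {e : α}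
    (hM : ∀ C : Finset α, M.IsCircuit (C : Set α) ↔ e ∉ C ∧ C.card = k) : HilbertBasis M := by
  refine hilbert_general (L := univ.erase e) hk (fun C hC => ?_) (fun T hT hTk => ?_)
    fun p hp h0 x => ?_
  · obtain ⟨h1, h2⟩ := (hM C).1 hC
    have : C ∩ univ.erase e = C := by
      ext x
      simp only [mem_inter, mem_erase, mem_univ, and_true]
      exact ⟨fun h => h.1, fun h => ⟨h, fun h3 => h1 (h3 ▸ h)⟩⟩
    rw [this, h2]
  · refine ⟨T, (hM T).2 ⟨fun h => ?_, hTk⟩, inter_eq_left.2 hT⟩
    have := hT h
    simp at this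
  · by_cases hx : x = e
    · subst hx
      obtain ⟨c, hc1, hc2⟩ := hp
      rw [hc2 x]
      refine sum_eq_zero fun C _ => ?_
      split_ifs with hxC
      · by_contra h
        exact ((hM C).1 (hc1 C h)).1 hxC
      · rfl
    · exact h0 x (mem_erase.2 ⟨hx, mem_univ x⟩)

/-- The series extensions of the uniform matroids. -/
theorem hilbert_series {M : Matroid α} {k : ℕ} (hk : 0 < k) {e f : α} (hef : e ≠ f)
    (hM : ∀ C : Finset α, M.IsCircuit (C : Set α) ↔
      (e ∉ C ∧ f ∉ C ∧ C.card = k) ∨ (e ∈ C ∧ f ∈ C ∧ C.card = k + 1)) : HilbertBasis M := by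
  refine hilbert_general (L := univ.erase f) hk (fun C hC => ?_) (fun T hT hTk => ?_)
    fun p hp h0 x => ?_
  · have h0 : C ∩ univ.erase f = C.erase f := by
      ext x
      simp only [mem_inter, mem_erase, mem_univ, and_true]
      tauto
    rw [h0]
    rcases (hM C).1 hC with ⟨h1, h2, h3⟩ | ⟨h1, h2, h3⟩
    · rw [erase_eq_of_notMem h2, h3]
    · rw [card_erase_of_mem h2, h3]
      omega
  · have hfT : f ∉ T := fun h => by
      have := hT h
      simp at this
    by_cases heT : e ∈ T
    · refine ⟨insert f T, (hM _).2 (Or.inr ⟨mem_insert_of_mem heT, mem_insert_self _ _, ?_⟩), ?_⟩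
      · rw [card_insert_of_notMem hfT, hTk]
      · ext x
        simp only [mem_inter, mem_erase, mem_univ, and_true, mem_insert]
        constructor
        · rintro ⟨rfl | h, h'⟩
          · exact (h' rfl).elim
          · exact h
        · intro h
          exact ⟨Or.inr h, fun h' => hfT (h' ▸ h)⟩
    · exact ⟨T, (hM _).2 (Or.inl ⟨heT, hfT, hTk⟩), inter_eq_left.2 hT⟩
  · by_cases hx : x = f
    · subst hx
      have h1 := h0 e (mem_erase.2 ⟨hef, mem_univ e⟩)
      obtain ⟨c, hc1, hc2⟩ := hp
      rw [hc2 e] at h1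
      refine (hc2 x).trans (Eq.trans (sum_congr rfl fun C _ => ?_) h1)
      by_cases hc : c C = 0
      · rw [hc]
        simp
      · have h2 : x ∈ C ↔ e ∈ C := by
          rcases (hM C).1 (hc1 C hc) with ⟨h3, h4, -⟩ | ⟨h3, h4, -⟩
          · exact ⟨fun h => (h4 h).elim, fun h => (h3 h).elim⟩
          · exact ⟨fun _ => h3, fun _ => h4⟩
        simp only [h2]
    · exact h0 x (mem_erase.2 ⟨hx, mem_univ x⟩)

end Pool.Agent.Q114.HB
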