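import Pool.Agent.Q114.HB.Large
import Pool.Agent.Q114.HB.General

set_option autoImplicit false
set_option linter.unusedSectionVars false

/-!
The classification of the large paving matroids whose circuits form a Hilbert basis.
-/

namespace Pool.Agent.Q114.HB

open Finset

variable {α : Type} [Fintype α] [DecidableEq α] {M : Matroid α} {r : ℕ}

/-- The circuits inside a hyperplane are its `r`-subsets. -/
theorem IsPaving.circuit_iff_of_subset_cl (h : IsPaving M r) {W₀ C : Finset α}
    (hW₀ : W₀.card + 1 = r) (hC : C ⊆ cl M W₀) : M.IsCircuit (C : Set α) ↔ C.card = r := by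
  refine ⟨fun hc => ?_, fun hc => h.circuit_of_cl hW₀ hC hc⟩
  have h1 := h.ge C hc
  obtain ⟨D, hD, hDr⟩ := exists_subset_card_eq (s := C) (n := r) h1
  have h2 := h.circuit_of_cl hW₀ (hD.trans hC) hDr
  have h3 := hc.eq_of_superset_isCircuit h2 (Finset.coe_subset.2 hD)
  have h4 : C = D := Finset.coe_injective h3
  rw [h4, hDr]

/-- The case of two elements in series. -/
theorem IsPaving.series (h : IsPaving M r) (hr : 3 ≤ r) {W₀ : Finset α} (hW₀ : W₀.card + 1 = r)
    (hL : (r - 1) * (r - 1) ≤ (cl M W₀).card) {e f : α} (hef : e ≠ f)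
    (hcl : ∀ x, x ∈ cl M W₀ ↔ x ≠ e ∧ x ≠ f) (hHB : HilbertBasis M) (C : Finset α) :
    M.IsCircuit (C : Set α) ↔
      (e ∉ C ∧ f ∉ C ∧ C.card = r) ∨ (e ∈ C ∧ f ∈ C ∧ C.card = r + 1) := by
  have hsq : r + 1 ≤ (r - 1) * (r - 1) := by
    obtain ⟨s, rfl⟩ : ∃ s, r = s + 3 := ⟨r - 3, by omega⟩
    have : s + 3 - 1 = s + 2 := by omega
    rw [this]
    nlinarith
  have heL : e ∉ cl M W₀ := fun h => ((hcl e).1 h).1 rfl
  have hfL : f ∉ cl M W₀ := fun h => ((hcl f).1 h).2 rfl
  -- a circuit contains both or none of `e`, `f`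
  have hboth : ∀ D : Finset α, M.IsCircuit (D : Set α) → (e ∈ D ↔ f ∈ D) := by
    intro D hD
    constructor
    · intro heD
      by_contra hfD
      exact heL (mem_cl_of_circuit hD heD fun x hx => (hcl x).2
        ⟨ne_of_mem_erase hx, fun h => hfD (h ▸ mem_of_mem_erase hx)⟩)
    · intro hfD
      by_contra heD
      exact hfL (mem_cl_of_circuit hD hfD fun x hx => (hcl x).2
        ⟨fun h => heD (h ▸ mem_of_mem_erase hx), ne_of_mem_erase hx⟩)
  -- a circuit of size `r + 1` through `e`, `f`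
  have hout : 2 ≤ (({e, f} : Finset α) \ cl M W₀).card := by
    have : ({e, f} : Finset α) \ cl M W₀ = {e, f} := by
      rw [Finset.sdiff_eq_self_iff_disjoint, disjoint_left]
      intro x hx
      simp only [mem_insert, mem_singleton] at hx
      rcases hx with rfl | rfl <;> assumption
    rw [this, card_pair hef]
  obtain ⟨Q, hQ1, hQ2, hQ3⟩ := h.grow hr hL (r - 1) {e, f} (by rw [card_pair hef]; omega) hout (by
    intro S hS hSr
    have := card_le_card hS
    rw [card_pair hef] at this
    omega)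
  have hQc : M.IsCircuit (Q : Set α) := h.circuit hQ2 hQ3
  -- the lattice
  obtain ⟨x₀, hx₀⟩ : (cl M W₀).Nonempty := by
    rw [← card_pos]
    omega
  have hlk : ∀ x ∈ cl M W₀, dl x₀ - dl x ∈ lat M := by
    intro x hx
    by_cases hne : x₀ = x
    · rw [hne, sub_self]
      exact (lat M).zero_mem
    · exact exch_mem (h.link_in hW₀ (hsq.trans hL) hx₀ hx hne)
  have hval : ∀ D : Finset α, M.IsCircuit (D : Set α) → e ∈ D → f ∈ D →
      dl e + dl f + ((D.card : ℤ) - 2) • dl x₀ ∈ lat M := by
    intro D hD heD hfD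
    have e1 : ({e, f} : Finset α) ⊆ D := by
      intro x hx
      simp only [mem_insert, mem_singleton] at hx
      rcases hx with rfl | rfl <;> assumption
    have e2 : ind D = dl e + dl f + ∑ x ∈ D \ {e, f}, dl x := by
      rw [ind_eq_sum, ← sum_sdiff e1, sum_pair hef, add_comm]
    have e3 : ∑ x ∈ D \ {e, f}, (dl x₀ - dl x) ∈ lat M :=
      (lat M).sum_mem fun x hx => hlk x ((hcl x).2 (by
        have := (mem_sdiff.1 hx).2
        simp only [mem_insert, mem_singleton, not_or] at this
        exact this))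
    have e4 := (lat M).add_mem (ind_mem hD) e3
    have e5 : ((D \ {e, f}).card : ℤ) = (D.card : ℤ) - 2 := by
      have h1 := card_sdiff_add_card_eq_card e1
      rw [card_pair hef] at h1
      omega
    rw [e2, sum_sub_distrib, sum_const, ← natCast_zsmul, e5] at e4
    have e6 : dl e + dl f + ∑ x ∈ D \ {e, f}, dl x + (((D.card : ℤ) - 2) • dl x₀ -
        ∑ x ∈ D \ {e, f}, dl x) = dl e + dl f + ((D.card : ℤ) - 2) • dl x₀ := by abel
    rwa [e6] at e4
  -- there is no circuit of size `r` through `e`, `f`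
  have hsize : ∀ D : Finset α, M.IsCircuit (D : Set α) → e ∈ D → D.card = r + 1 := by
    intro D hD heD
    have hfD := (hboth D hD).1 heD
    by_contra hne
    have h1 := h.ge D hD
    have h2 := h.le D hD
    have h3 : D.card = r := by omega
    have e1 := (lat M).sub_mem (hval Q hQc (hQ1 (by simp)) (hQ1 (by simp))) (hval D hD heD hfD)
    rw [hQ2, h3] at e1
    have e2 : dl x₀ ∈ lat M := by
      have e3 : dl e + dl f + (((r + 1 : ℕ) : ℤ) - 2) • dl x₀ -
          (dl e + dl f + ((r : ℤ) - 2) • dl x₀) = dl x₀ := by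
        rw [add_sub_add_left_eq_sub, ← sub_smul]
        have : (((r + 1 : ℕ) : ℤ) - 2) - ((r : ℤ) - 2) = 1 := by push_cast; ring
        rw [this, one_zsmul]
      rwa [e3] at e1
    have e4 : ∀ x ∈ cl M W₀, dl x ∈ lat M := fun x hx => by
      have := (lat M).sub_mem e2 (hlk x hx)
      rwa [sub_sub_cancel] at this
    obtain ⟨S, hS, hSr⟩ := exists_subset_card_eq (s := cl M W₀) (n := r + 1) (hsq.trans hL)
    obtain ⟨a, ha, b, hb, hab⟩ := one_lt_card.1 (show 1 < S.card by omega)
    have haX : a ∉ (S.erase a).erase b := by simp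
    have hbX : b ∉ (S.erase a).erase b := by simp
    have hbS : b ∈ S.erase a := mem_erase.2 ⟨hab.symm, hb⟩
    have hSX : insert a (insert b ((S.erase a).erase b)) = S := by
      rw [insert_erase hbS, insert_erase ha]
    have hXc : ((S.erase a).erase b).card + 1 = r := by
      rw [card_erase_of_mem hbS, card_erase_of_mem ha]
      omega
    have hXL : (S.erase a).erase b ⊆ cl M W₀ :=
      ((erase_subset _ _).trans (erase_subset _ _)).trans hS
    have hCa : M.IsCircuit ((insert a ((S.erase a).erase b) : Finset α) : Set α) :=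
      h.circuit_of_cl hW₀ (insert_subset (hS ha) hXL) (by rw [card_insert_of_notMem haX]; omega)
    have hCb : M.IsCircuit ((insert b ((S.erase a).erase b) : Finset α) : Set α) :=
      h.circuit_of_cl hW₀ (insert_subset (hS hb) hXL) (by rw [card_insert_of_notMem hbX]; omega)
    have hXne : ((S.erase a).erase b).Nonempty := by
      rw [← card_pos]
      omega
    have hlat : ((1 : ℕ) : ℤ) • ind (insert a (insert b ((S.erase a).erase b))) ∈ lat M := by
      rw [hSX, Nat.cast_one, one_zsmul, ind_eq_sum]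
      exact (lat M).sum_mem fun x hx => e4 x (hS hx)
    have e7 := dvd_of_intCone haX hbX hab hCa hCb 1
      (hHB _ (cone_mem haX hbX hab hCa hCb hXne 1) hlat)
    have e8 := three_le haX hbX hab hCa hCb hXne
    have e9 := Int.le_of_dvd (by norm_num) e7
    push_cast at e9
    omega
  constructor
  · intro hC
    by_cases heC : e ∈ C
    · exact Or.inr ⟨heC, (hboth C hC).1 heC, hsize C hC heC⟩
    · have hfC : f ∉ C := fun h => heC ((hboth C hC).2 h)
      refine Or.inl ⟨heC, hfC, (h.circuit_iff_of_subset_cl hW₀ fun x hx => (hcl x).2 ?_).1 hC⟩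
      exact ⟨fun h => heC (h ▸ hx), fun h => hfC (h ▸ hx)⟩
  · rintro (⟨heC, hfC, hCr⟩ | ⟨heC, hfC, hCr⟩)
    · refine (h.circuit_iff_of_subset_cl hW₀ fun x hx => (hcl x).2 ?_).2 hCr
      exact ⟨fun h => heC (h ▸ hx), fun h => hfC (h ▸ hx)⟩
    · refine h.circuit hCr fun D hD hDr hDc => ?_
      by_cases heD : e ∈ D
      · have := hsize D hDc heD
        omega
      · have hfD : f ∉ D := fun h => heD ((hboth D hDc).2 h)
        have h1 : D ⊆ (C.erase e).erase f := fun x hx =>
          mem_erase.2 ⟨fun h => hfD (h ▸ hx), mem_erase.2 ⟨fun h => heD (h ▸ hx), hD hx⟩⟩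
        have h2 := card_le_card h1
        rw [card_erase_of_mem (mem_erase.2 ⟨hef.symm, hfC⟩), card_erase_of_mem heC] at h2
        omega

/-- The classification. -/
theorem IsPaving.classify (h : IsPaving M r) (hr : 3 ≤ r)
    (hn : (2 * r - 1) * ((r - 1) * (r - 1) - r) + r + 2 ≤ Fintype.card α)
    (hn' : (r - 1) * (r - 1) + 2 ≤ Fintype.card α)
    (h3 : r = 3 → ∀ W W' : Finset α, W.card = 2 → W'.card = 2 →
      ∃ x, x ∉ M.closure (W : Set α) ∧ x ∉ M.closure (W' : Set α)) :
    HilbertBasis M ↔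
      ((∀ C : Finset α, M.IsCircuit (C : Set α) ↔ C.card = r + 1) ∨
        (∃ e : α, ∀ C : Finset α, M.IsCircuit (C : Set α) ↔ e ∉ C ∧ C.card = r) ∨
        ∃ e f : α, e ≠ f ∧ ∀ C : Finset α, M.IsCircuit (C : Set α) ↔
          (e ∉ C ∧ f ∉ C ∧ C.card = r) ∨ (e ∈ C ∧ f ∈ C ∧ C.card = r + 1)) := by
  constructor
  swap
  · rintro (hU | ⟨e, hU⟩ | ⟨e, f, hef, hU⟩)
    · exact hilbert_of_uniform (by omega) hU
    · exact hilbert_coloop (by omega) hU
    · exact hilbert_series (by omega) hef hU
  intro hHB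
  by_cases hco : ∀ e f : α, e ≠ f → ∃ C : Finset α, M.IsCircuit (C : Set α) ∧ e ∈ C ∧ f ∉ C
  · exact Or.inl ((h.iff hr hn hco h3).1 hHB)
  right
  push Not at hco
  obtain ⟨e, f, hef, hC⟩ := hco
  -- all `r`-subsets of the complement of `{e, f}` are circuits
  have hsub : ∀ S : Finset α, e ∉ S → f ∉ S → S.card = r → M.IsCircuit (S : Set α) := by
    intro S heS hfS hSr
    obtain ⟨D, hD, hDc⟩ := h.dep (insert e S) (by rw [card_insert_of_notMem heS]; omega)
    have h1 : e ∉ D := fun heD => by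
      have := hD (hC D hDc heD)
      rw [mem_insert] at this
      exact this.elim (fun h => hef h.symm) hfS
    have h2 : D ⊆ S := fun x hx => by
      rcases mem_insert.1 (hD hx) with h3 | h3
      · exact (h1 (h3 ▸ hx)).elim
      · exact h3
    have h3 := h.ge D hDc
    have h4 : D = S := eq_of_subset_of_card_le h2 (by omega)
    rwa [h4] at hDc
  have hVc : ((univ : Finset α) \ {e, f}).card = Fintype.card α - 2 := by
    rw [card_sdiff_of_subset (subset_univ _), card_pair hef, card_univ]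
  have hr1 : r - 1 ≤ (r - 1) * (r - 1) := by
    have : 1 ≤ r - 1 := by omega
    nlinarith
  obtain ⟨W₀, hW, hWc⟩ := exists_subset_card_eq (s := (univ : Finset α) \ {e, f}) (n := r - 1)
    (by omega)
  have hW₀ : W₀.card + 1 = r := by omega
  have heW : e ∉ W₀ := fun h => by
    have := hW h
    simp at this
  have hfW : f ∉ W₀ := fun h => by
    have := hW h
    simp at this
  have hcl : ∀ x, x ≠ e → x ≠ f → x ∈ cl M W₀ := by
    intro x hxe hxf
    by_cases hx : x ∈ W₀
    · exact h.subset_cl _ hx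
    · refine mem_cl_of_circuit (hsub (insert x W₀) ?_ ?_ ?_) (mem_insert_self _ _) ?_
      · rw [mem_insert, not_or]
        exact ⟨hxe.symm, heW⟩
      · rw [mem_insert, not_or]
        exact ⟨hxf.symm, hfW⟩
      · rw [card_insert_of_notMem hx]
        omega
      · rw [erase_insert hx]
        exact h.subset_cl _
  have hL : (r - 1) * (r - 1) ≤ (cl M W₀).card := by
    have h1 : (univ : Finset α) \ {e, f} ⊆ cl M W₀ := by
      intro x hx
      simp only [mem_sdiff, mem_univ, true_and, mem_insert, mem_singleton, not_or] at hx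
      exact hcl x hx.1 hx.2
    have h2 := card_le_card h1
    omega
  obtain ⟨u, hu⟩ : ∃ u, u ∉ cl M W₀ := by
    by_contra hcon
    push Not at hcon
    obtain ⟨B, hB, hBi⟩ := h.rank
    exact (h.circuit_of_cl hW₀ (fun x _ => hcon x) hB).not_indep hBi
  by_cases hone : ∀ x, x ≠ u → x ∈ cl M W₀
  · -- a coloop
    left
    refine ⟨u, fun C => ?_⟩
    constructor
    · intro hC
      have h1 : u ∉ C := fun h2 => hu (mem_cl_of_circuit hC h2 fun x hx =>
        hone x (ne_of_mem_erase hx))
      exact ⟨h1, (h.circuit_iff_of_subset_cl hW₀ fun x hx =>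
        hone x fun h => h1 (h ▸ hx)).1 hC⟩
    · rintro ⟨h1, h2⟩
      exact (h.circuit_iff_of_subset_cl hW₀ fun x hx => hone x fun h => h1 (h ▸ hx)).2 h2
  · push Not at hone
    obtain ⟨v, hvu, hv⟩ := hone
    right
    have huef : u = e ∨ u = f := by
      by_contra hcon
      rw [not_or] at hcon
      exact hu (hcl u hcon.1 hcon.2)
    have hvef : v = e ∨ v = f := by
      by_contra hcon
      rw [not_or] at hcon
      exact hv (hcl v hcon.1 hcon.2)
    have heL : e ∉ cl M W₀ := by
      rcases huef with rfl | rfl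
      · exact hu
      · rcases hvef with rfl | rfl
        · exact hv
        · exact (hvu rfl).elim
    have hfL : f ∉ cl M W₀ := by
      rcases huef with rfl | rfl
      · rcases hvef with rfl | rfl
        · exact (hvu rfl).elim
        · exact hv
      · exact hu
    exact ⟨e, f, hef, h.series hr hW₀ hL hef (fun x => ⟨fun hx =>
      ⟨fun h => heL (h ▸ hx), fun h => hfL (h ▸ hx)⟩, fun hx => hcl x hx.1 hx.2⟩) hHB⟩

/-- The classification in terms of the usual definitions. -/
theorem paving_classify (hr : 3 ≤ r) (hE : M.E = Set.univ) (hrank : M.eRank = r)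
    (hpav : ∀ C : Finset α, M.IsCircuit (C : Set α) → r ≤ C.card)
    (h3 : r = 3 → ∀ W W' : Finset α, W.card = 2 → W'.card = 2 →
      ∃ x, x ∉ M.closure (W : Set α) ∧ x ∉ M.closure (W' : Set α))
    (hn : 2 * r ^ 3 + 6 * r + 1 ≤ Fintype.card α + 7 * r ^ 2) :
    HilbertBasis M ↔
      ((∀ C : Finset α, M.IsCircuit (C : Set α) ↔ C.card = r + 1) ∨
        (∃ e : α, ∀ C : Finset α, M.IsCircuit (C : Set α) ↔ e ∉ C ∧ C.card = r) ∨
        ∃ e f : α, e ≠ f ∧ ∀ C : Finset α, M.IsCircuit (C : Set α) ↔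
          (e ∉ C ∧ f ∉ C ∧ C.card = r) ∨ (e ∈ C ∧ f ∈ C ∧ C.card = r + 1)) := by
  have hP := isPaving hE hrank hpav
  obtain ⟨s, rfl⟩ : ∃ s, r = s + 3 := ⟨r - 3, by omega⟩
  have h1 : 2 * (s + 3) - 1 = 2 * s + 5 := by omega
  have h2 : s + 3 - 1 = s + 2 := by omega
  have h4 : (s + 2) * (s + 2) - (s + 3) = s * s + 3 * s + 1 := by
    have : (s + 2) * (s + 2) = (s * s + 3 * s + 1) + (s + 3) := by ring
    rw [this, Nat.add_sub_cancel]
  have h5 : (2 * s + 5) * (s * s + 3 * s + 1) + (s + 3) + 2 + 7 * (s + 3) ^ 2 =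
      2 * (s + 3) ^ 3 + 6 * (s + 3) + 1 := by ring
  have h6 : (s + 2) * (s + 2) + 2 ≤ (2 * s + 5) * (s * s + 3 * s + 1) + (s + 3) + 2 := by
    nlinarith [Nat.zero_le (s * s), Nat.zero_le (s * (s * s))]
  refine hP.classify hr ?_ ?_ h3
  · rw [h1, h2, h4]
    omega
  · rw [h2]
    omega

end Pool.Agent.Q114.HB
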