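import Pool.Agent.Q114.HB.TwoLines

set_option autoImplicit false
set_option linter.unusedSectionVars false

/-!
The property that the circuits form a Hilbert basis is not preserved by contractions.
-/

namespace Pool.Agent.Q114.HB

open Finset

variable {α : Type} [Fintype α] [DecidableEq α]

/-- The truncation of the direct sum of two uniform matroids of rank two exists. -/
theorem exists_two (A B : Finset α) (hAB : Disjoint A B) (hU : ∀ x, x ∈ A ∨ x ∈ B) :
    ∃ M : Matroid α, M.E = Set.univ ∧ ∀ I : Finset α, M.Indep (I : Set α) ↔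
      I.card ≤ 3 ∧ (I ∩ A).card ≤ 2 ∧ (I ∩ B).card ≤ 2 := by
  let Ind : Finset α → Prop := fun I => I.card ≤ 3 ∧ (I ∩ A).card ≤ 2 ∧ (I ∩ B).card ≤ 2
  have hsum : ∀ I : Finset α, (I ∩ A).card + (I ∩ B).card = I.card := by
    intro I
    rw [← card_union_of_disjoint (hAB.mono inter_subset_right inter_subset_right),
      ← inter_union_distrib_left]
    congr 1
    rw [inter_eq_left]
    intro x _
    exact mem_union.2 (hU x)
  have h1 : Ind ∅ := by simp [Ind]
  have h2 : ∀ ⦃I J : Finset α⦄, Ind J → I ⊆ J → Ind I := by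
    intro I J hJ hIJ
    exact ⟨(card_le_card hIJ).trans hJ.1, (card_le_card (inter_subset_inter_right hIJ)).trans hJ.2.1,
      (card_le_card (inter_subset_inter_right hIJ)).trans hJ.2.2⟩
  have h3 : ∀ ⦃I J : Finset α⦄, Ind I → Ind J → I.card < J.card →
      ∃ e ∈ J, e ∉ I ∧ Ind (insert e I) := by
    intro I J hI hJ hlt
    obtain ⟨hI1, hI2, hI3⟩ := hI
    obtain ⟨hJ1, hJ2, hJ3⟩ := hJ
    have e1 := hsum I
    have e2 := hsum J
    by_cases hA : (I ∩ A).card < (J ∩ A).card
    · obtain ⟨e, he, he'⟩ := exists_mem_notMem_of_card_lt_card hA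
      obtain ⟨heJ, heA⟩ := mem_inter.1 he
      have heI : e ∉ I := fun h => he' (mem_inter.2 ⟨h, heA⟩)
      refine ⟨e, heJ, heI, ?_, ?_, ?_⟩
      · rw [card_insert_of_notMem heI]
        omega
      · rw [insert_inter_of_mem heA, card_insert_of_notMem he']
        omega
      · rw [insert_inter_of_notMem (disjoint_left.1 hAB heA)]
        exact hI3
    · have hB : (I ∩ B).card < (J ∩ B).card := by omega
      obtain ⟨e, he, he'⟩ := exists_mem_notMem_of_card_lt_card hB
      obtain ⟨heJ, heB⟩ := mem_inter.1 he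
      have heI : e ∉ I := fun h => he' (mem_inter.2 ⟨h, heB⟩)
      refine ⟨e, heJ, heI, ?_, ?_, ?_⟩
      · rw [card_insert_of_notMem heI]
        omega
      · rw [insert_inter_of_notMem (disjoint_right.1 hAB heB)]
        exact hI2
      · rw [insert_inter_of_mem heB, card_insert_of_notMem he']
        omega
  have h4 : ∀ ⦃I : Finset α⦄, Ind I → (I : Set α) ⊆ Set.univ := fun _ _ => Set.subset_univ _
  refine ⟨(IndepMatroid.ofFinset Set.univ Ind h1 h2 h3 h4).matroid, rfl, fun I => ?_⟩
  exact IndepMatroid.ofFinset_indep Set.univ Ind h1 h2 h3 h4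

theorem circuit_iff {N : Matroid α} {Ind : Finset α → Prop}
    (hN : ∀ I : Finset α, N.Indep (I : Set α) ↔ Ind I) {C : Finset α} (hE : (C : Set α) ⊆ N.E) :
    N.IsCircuit (C : Set α) ↔ ¬ Ind C ∧ ∀ x ∈ C, Ind (C.erase x) := by
  rw [Matroid.isCircuit_iff_dep_forall_sdiff_singleton_indep]
  constructor
  · rintro ⟨h1, h2⟩
    refine ⟨fun h => h1.not_indep ((hN C).2 h), fun x hx => ?_⟩
    rw [← hN, coe_erase]
    exact h2 x (mem_coe.2 hx)
  · rintro ⟨h1, h2⟩
    refine ⟨⟨fun h => h1 ((hN C).1 h), hE⟩, fun x hx => ?_⟩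
    rw [← coe_erase, hN]
    exact h2 x (mem_coe.1 hx)

section

variable {A B : Finset α} (hAB : Disjoint A B) (hU : ∀ x, x ∈ A ∨ x ∈ B) {M : Matroid α}
  (hE : M.E = Set.univ)
  (hM : ∀ I : Finset α, M.Indep (I : Set α) ↔ I.card ≤ 3 ∧ (I ∩ A).card ≤ 2 ∧ (I ∩ B).card ≤ 2)

include hAB hU in
theorem card_parts (I : Finset α) : (I ∩ A).card + (I ∩ B).card = I.card := by
  rw [← card_union_of_disjoint (hAB.mono inter_subset_right inter_subset_right),
    ← inter_union_distrib_left]
  congr 1
  rw [inter_eq_left]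
  intro x _
  exact mem_union.2 (hU x)

theorem erase_inter_mem {x : α} {C S : Finset α} (hx : x ∈ C) (hS : x ∈ S) :
    (C.erase x ∩ S).card = (C ∩ S).card - 1 := by
  rw [erase_inter, card_erase_of_mem (mem_inter.2 ⟨hx, hS⟩)]

theorem erase_inter_notMem {x : α} {C S : Finset α} (hS : x ∉ S) :
    (C.erase x ∩ S).card = (C ∩ S).card := by
  rw [erase_inter, erase_eq_of_notMem fun h => hS (mem_inter.1 h).2]

include hAB hU hE hM in
theorem two_lines : TwoLines M A := by
  intro C
  rw [circuit_iff hM (by rw [hE]; exact Set.subset_univ _)]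
  have e1 := card_parts hAB hU C
  have e2 : C \ A = C ∩ B := by
    ext x
    rw [mem_sdiff, mem_inter]
    exact ⟨fun h => ⟨h.1, (hU x).resolve_left h.2⟩, fun h => ⟨h.1, disjoint_right.1 hAB h.2⟩⟩
  rw [e2]
  constructor
  · rintro ⟨h1, h2⟩
    by_cases hA : 3 ≤ (C ∩ A).card
    · have hB : (C ∩ B).card = 0 := by
        by_contra hB
        obtain ⟨x, hx⟩ := card_ne_zero.1 hB
        obtain ⟨hxC, hxB⟩ := mem_inter.1 hx
        obtain ⟨-, h3, -⟩ := h2 x hxC
        rw [erase_inter_notMem (disjoint_right.1 hAB hxB)] at h3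
        omega
      obtain ⟨x, hx⟩ := card_pos.1 (show 0 < (C ∩ A).card by omega)
      obtain ⟨hxC, hxA⟩ := mem_inter.1 hx
      obtain ⟨-, h3, -⟩ := h2 x hxC
      rw [erase_inter_mem hxC hxA] at h3
      refine Or.inl ⟨by omega, Or.inl fun y hy => ?_⟩
      by_contra hyA
      have : y ∈ C ∩ B := mem_inter.2 ⟨hy, (hU y).resolve_left hyA⟩
      rw [card_eq_zero.1 hB] at this
      exact notMem_empty _ this
    by_cases hB : 3 ≤ (C ∩ B).card
    · have hA : (C ∩ A).card = 0 := by
        by_contra hA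
        obtain ⟨x, hx⟩ := card_ne_zero.1 hA
        obtain ⟨hxC, hxA⟩ := mem_inter.1 hx
        obtain ⟨-, -, h3⟩ := h2 x hxC
        rw [erase_inter_notMem (disjoint_left.1 hAB hxA)] at h3
        omega
      obtain ⟨x, hx⟩ := card_pos.1 (show 0 < (C ∩ B).card by omega)
      obtain ⟨hxC, hxB⟩ := mem_inter.1 hx
      obtain ⟨-, -, h3⟩ := h2 x hxC
      rw [erase_inter_mem hxC hxB] at h3
      refine Or.inl ⟨by omega, Or.inr ?_⟩
      rw [disjoint_iff_inter_eq_empty]
      exact card_eq_zero.1 hA
    · right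
      by_contra hcon
      apply h1
      omega
  · rintro (⟨h1, h2 | h2⟩ | ⟨h1, h2⟩)
    · have hA : (C ∩ A).card = 3 := by rw [inter_eq_left.2 h2, h1]
      refine ⟨fun h => by omega, fun x hx => ?_⟩
      rw [erase_inter_mem hx (h2 hx), erase_inter_notMem (disjoint_left.1 hAB (h2 hx)),
        card_erase_of_mem hx]
      omega
    · have hA : (C ∩ A).card = 0 := by rw [disjoint_iff_inter_eq_empty.1 h2, card_empty]
      refine ⟨fun h => by omega, fun x hx => ?_⟩
      have hxA : x ∉ A := disjoint_left.1 h2 hx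
      rw [erase_inter_mem hx ((hU x).resolve_left hxA), erase_inter_notMem hxA,
        card_erase_of_mem hx]
      omega
    · refine ⟨fun h => by omega, fun x hx => ?_⟩
      rw [card_erase_of_mem hx]
      rcases hU x with hxA | hxB
      · rw [erase_inter_mem hx hxA, erase_inter_notMem (disjoint_left.1 hAB hxA)]
        omega
      · rw [erase_inter_mem hx hxB, erase_inter_notMem (disjoint_right.1 hAB hxB)]
        omega

include hAB hU hE hM in
/-- The contraction of an element. -/
theorem not_hilbert_contract (hA : 3 ≤ A.card) (hB : 3 ≤ B.card) {e : α} (he : e ∈ A) :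
    ¬ HilbertBasis (M.contract {e}) := by
  intro hHB
  have heB : e ∉ B := disjoint_left.1 hAB he
  have hnl : M.IsNonloop e := by
    rw [← Matroid.indep_singleton]
    have := (hM {e}).2 ⟨by simp, by
      rw [singleton_inter_of_mem he]
      simp, by
      rw [singleton_inter_of_notMem heB]
      simp⟩
    rwa [coe_singleton] at this
  have hN : ∀ I : Finset α, (M.contract {e}).Indep (I : Set α) ↔
      e ∉ I ∧ I.card ≤ 2 ∧ (I ∩ A).card ≤ 1 := by
    intro I
    rw [hnl.contractElem_indep_iff, mem_coe]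
    refine and_congr_right fun heI => ?_
    rw [← coe_insert, hM, card_insert_of_notMem heI, insert_inter_of_mem he,
      insert_inter_of_notMem heB, card_insert_of_notMem fun h => heI (mem_inter.1 h).1]
    have := card_parts hAB hU I
    omega
  have hE' : ∀ C : Finset α, e ∉ C → (C : Set α) ⊆ (M.contract {e}).E := by
    intro C hC x hx
    rw [Matroid.contract_ground, hE]
    exact ⟨Set.mem_univ x, fun h => hC (by rw [Set.mem_singleton_iff] at h; exact h ▸ mem_coe.1 hx)⟩
  have hci : ∀ C : Finset α, e ∉ C → ((M.contract {e}).IsCircuit (C : Set α) ↔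
      ¬ (C.card ≤ 2 ∧ (C ∩ A).card ≤ 1) ∧
        ∀ x ∈ C, (C.erase x).card ≤ 2 ∧ (C.erase x ∩ A).card ≤ 1) := by
    intro C hC
    rw [circuit_iff hN (hE' C hC)]
    have : ∀ x, e ∉ C.erase x := fun x h => hC (mem_of_mem_erase h)
    simp only [hC, this, not_false_eq_true, true_and]
  -- triples with at most one element in `A`
  have htri : ∀ C : Finset α, e ∉ C → C.card = 3 → (C ∩ A).card ≤ 1 →
      (M.contract {e}).IsCircuit (C : Set α) := by
    intro C hC h3 h1
    rw [hci C hC]
    refine ⟨fun h => by omega, fun x hx => ⟨by rw [card_erase_of_mem hx]; omega, ?_⟩⟩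
    exact (card_le_card (inter_subset_inter_right (erase_subset _ _))).trans h1
  -- pairs in `A`
  have hpair : ∀ f g : α, f ∈ A → g ∈ A → f ≠ e → g ≠ e → f ≠ g →
      (M.contract {e}).IsCircuit (({f, g} : Finset α) : Set α) := by
    intro f g hf hg hfe hge hfg
    have hsub : ({f, g} : Finset α) ⊆ A := by
      intro x hx
      simp only [mem_insert, mem_singleton] at hx
      rcases hx with rfl | rfl <;> assumption
    rw [hci _ (by simp only [mem_insert, mem_singleton, not_or]; exact ⟨hfe.symm, hge.symm⟩)]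
    refine ⟨fun h => ?_, fun x hx => ?_⟩
    · rw [inter_eq_left.2 hsub, card_pair hfg] at h
      omega
    · have h1 : (({f, g} : Finset α).erase x).card = 1 := by
        rw [card_erase_of_mem hx, card_pair hfg]
      exact ⟨by omega, (card_le_card inter_subset_left).trans h1.le⟩
  have hex : ∀ f x : α, f ∈ A → f ≠ e → x ∈ B →
      Exch (M.contract {e}) f x ∧ Exch (M.contract {e}) x f := by
    intro f x hf hfe hx
    obtain ⟨X, hX, hXc⟩ := exists_subset_card_eq (s := B.erase x) (n := 2) (by
      rw [card_erase_of_mem hx]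
      omega)
    have hXB : X ⊆ B := hX.trans (erase_subset _ _)
    have hXA : X ∩ A = ∅ := by
      rw [← disjoint_iff_inter_eq_empty]
      exact (hAB.mono_right hXB).symm
    have hfX : f ∉ X := fun h => disjoint_left.1 hAB hf (hXB h)
    have hxX : x ∉ X := fun h => (mem_erase.1 (hX h)).1 rfl
    have heX : e ∉ X := fun h => heB (hXB h)
    have hxA : x ∉ A := disjoint_right.1 hAB hx
    have c1 : (M.contract {e}).IsCircuit ((insert f X : Finset α) : Set α) := by
      refine htri _ ?_ ?_ ?_
      · rw [mem_insert, not_or]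
        exact ⟨hfe.symm, heX⟩
      · rw [card_insert_of_notMem hfX, hXc]
      · rw [insert_inter_of_mem hf, hXA]
        simp
    have c2 : (M.contract {e}).IsCircuit ((insert x X : Finset α) : Set α) := by
      refine htri _ ?_ ?_ ?_
      · rw [mem_insert, not_or]
        exact ⟨fun h => heB (h ▸ hx), heX⟩
      · rw [card_insert_of_notMem hxX, hXc]
      · rw [insert_inter_of_notMem hxA, hXA]
        simp
    exact ⟨⟨X, hfX, hxX, c1, c2⟩, ⟨X, hxX, hfX, c2, c1⟩⟩
  -- two more elements of `A`
  obtain ⟨f, hf, g, hg, hfg⟩ := one_lt_card.1 (show 1 < (A.erase e).card by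
    rw [card_erase_of_mem he]
    omega)
  obtain ⟨hfe, hfA⟩ := mem_erase.1 hf
  obtain ⟨hge, hgA⟩ := mem_erase.1 hg
  obtain ⟨x, hx⟩ : B.Nonempty := by
    rw [← card_pos]
    omega
  have hlk : ∀ a, a ≠ e → Relation.ReflTransGen (Exch (M.contract {e})) a f ∧
      Relation.ReflTransGen (Exch (M.contract {e})) f a := by
    intro a hae
    rcases hU a with ha | ha
    · exact ⟨(Relation.ReflTransGen.single (hex a x ha hae hx).1).tail (hex f x hfA hfe hx).2,
        (Relation.ReflTransGen.single (hex f x hfA hfe hx).1).tail (hex a x ha hae hx).2⟩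
    · exact ⟨Relation.ReflTransGen.single (hex f a hfA hfe ha).2,
        Relation.ReflTransGen.single (hex f a hfA hfe ha).1⟩
  have hne : ∀ a, (∃ C : Finset α, a ∈ C ∧ (M.contract {e}).IsCircuit (C : Set α)) → a ≠ e := by
    rintro a ⟨C, haC, hC⟩ rfl
    have h1 := hC.subset_ground (mem_coe.2 haC)
    rw [Matroid.contract_ground] at h1
    exact h1.2 rfl
  have hloop : ∀ a : α, ¬ (M.contract {e}).IsCircuit {a} := by
    intro a ha
    have hae : a ≠ e := hne a ⟨{a}, mem_singleton_self a, by rw [coe_singleton]; exact ha⟩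
    apply ha.not_indep
    have h1 := (hN {a}).2 ⟨by simpa using hae.symm, by simp,
      (card_le_card inter_subset_left).trans (by simp)⟩
    rwa [coe_singleton] at h1
  have hp := hpair f g hfA hgA hfe hge hfg
  obtain ⟨g', hg2, hgd, -⟩ := main (M.contract {e}) hloop ⟨_, hp⟩ (fun a b ha hb =>
    (hlk a (hne a ha)).1.trans (hlk b (hne b hb)).2) hHB
  have h2 := hgd _ hp
  rw [card_pair hfg] at h2
  obtain ⟨T, hT, hT3⟩ := exists_subset_card_eq (s := B) (n := 3) hB
  have h3 := hgd T (htri T (fun h => heB (hT h)) hT3 (by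
    rw [disjoint_iff_inter_eq_empty.1 (hAB.mono_right hT).symm]
    simp))
  rw [hT3] at h3
  have h4 : g' ∣ 1 := (Nat.dvd_add_right h2).1 (show g' ∣ 2 + 1 from h3)
  have := Nat.le_of_dvd one_pos h4
  omega

end

/-- For all `A`, `B` with at least three elements there is a matroid on `A ∪ B` whose circuits form a
Hilbert basis, but the circuits of no contraction of a single element do. -/
theorem not_contraction_closed (A B : Finset α) (hAB : Disjoint A B) (hU : ∀ x, x ∈ A ∨ x ∈ B)
    (hA : 3 ≤ A.card) (hB : 3 ≤ B.card) :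
    ∃ M : Matroid α, M.E = Set.univ ∧ HilbertBasis M ∧ ∀ e, ¬ HilbertBasis (M.contract {e}) := by
  obtain ⟨M, hE, hM⟩ := exists_two A B hAB hU
  refine ⟨M, hE, hilbert_two (two_lines hAB hU hE hM), fun e => ?_⟩
  rcases hU e with he | he
  · exact not_hilbert_contract hAB hU hE hM hA hB he
  · exact not_hilbert_contract hAB.symm (fun x => (hU x).symm) hE (fun I => by rw [hM]; tauto)
      hB hA he

/-- The property is preserved by deletions. -/
theorem hilbert_delete {M : Matroid α} (h : HilbertBasis M) (D : Set α) :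
    HilbertBasis (M.delete D) := by
  rintro p ⟨c, hc0, hc1, hc2⟩ ⟨d, hd1, hd2⟩
  have hc1' : ∀ C, c C ≠ 0 → M.IsCircuit (C : Set α) ∧ Disjoint (C : Set α) D := fun C hC =>
    Matroid.delete_isCircuit_iff.1 (hc1 C hC)
  have hd1' : ∀ C, d C ≠ 0 → M.IsCircuit (C : Set α) ∧ Disjoint (C : Set α) D := fun C hC =>
    Matroid.delete_isCircuit_iff.1 (hd1 C hC)
  obtain ⟨f, hf0, hf1, hf2⟩ := h p ⟨c, hc0, fun C hC => (hc1' C hC).1, hc2⟩
    ⟨d, fun C hC => (hd1' C hC).1, hd2⟩
  refine ⟨f, hf0, fun C hC => Matroid.delete_isCircuit_iff.2 ⟨hf1 C hC, ?_⟩, hf2⟩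
  rw [Set.disjoint_left]
  intro x hxC hxD
  have h1 : p x = 0 := by
    rw [hd2 x]
    refine sum_eq_zero fun E _ => ?_
    split_ifs with hxE
    · by_contra hE
      exact Set.disjoint_left.1 (hd1' E hE).2 (mem_coe.2 hxE) hxD
    · rfl
  have h2 := hf2 x
  rw [h1] at h2
  have h3 := (sum_eq_zero_iff_of_nonneg (fun C _ => by
    split_ifs
    · exact hf0 C
    · exact le_rfl)).1 h2.symm C (mem_univ C)
  rw [if_pos (mem_coe.1 hxC)] at h3
  exact hC h3

/-- Rank three matroids on `n ≥ 6` elements. -/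
theorem exists_fin (n : ℕ) (hn : 6 ≤ n) :
    ∃ M : Matroid (Fin n), M.E = Set.univ ∧ HilbertBasis M ∧
      ∀ e, ¬ HilbertBasis (M.contract {e}) := by
  let A : Finset (Fin n) := univ.filter fun i => i.val < 3
  have hA : A.card = 3 := by
    have : A = (univ : Finset (Fin 3)).map (Fin.castLEEmb (by omega : 3 ≤ n)) := by
      ext i
      simp only [A, mem_filter, mem_univ, true_and, mem_map]
      constructor
      · intro hi
        exact ⟨⟨i.val, hi⟩, rfl⟩
      · rintro ⟨j, rfl⟩
        exact j.isLt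
    rw [this, card_map, card_univ, Fintype.card_fin]
  have hB : (univ \ A).card = n - 3 := by
    rw [card_sdiff_of_subset (subset_univ _), card_univ, Fintype.card_fin, hA]
  exact not_contraction_closed A (univ \ A) disjoint_sdiff
    (fun x => by
      by_cases hx : x ∈ A
      · exact Or.inl hx
      · exact Or.inr (mem_sdiff.2 ⟨mem_univ x, hx⟩)) hA.ge (by omega)

end Pool.Agent.Q114.HB
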