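import Pool.Agent.Q114.HB.Paving

set_option autoImplicit false
set_option linter.unusedSectionVars false

/-!
Paving matroids with a large hyperplane, and the final equivalence for paving matroids.
-/

namespace Pool.Agent.Q114.HB

open Finset

variable {α : Type} [Fintype α] [DecidableEq α]

/-- The closure as a finite set. -/
noncomputable def cl (M : Matroid α) (W : Finset α) : Finset α := by
  classical exact univ.filter fun y => y ∈ M.closure (W : Set α)

theorem mem_cl {M : Matroid α} {W : Finset α} {y : α} :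
    y ∈ cl M W ↔ y ∈ M.closure (W : Set α) := by
  simp [cl]

theorem coe_cl (M : Matroid α) (W : Finset α) : (cl M W : Set α) = M.closure (W : Set α) := by
  ext y
  rw [mem_coe, mem_cl]

variable {M : Matroid α} {r : ℕ}

theorem IsPaving.indep (h : IsPaving M r) {W : Finset α} (hW : W.card ≤ r)
    (hn : W.card = r → ¬ M.IsCircuit (W : Set α)) : M.Indep (W : Set α) := by
  rw [Matroid.indep_iff_forall_subset_not_isCircuit (by rw [h.ground]; exact Set.subset_univ _)]
  intro C hC hCc
  have hfin : C.Finite := Set.toFinite C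
  have h1 := h.ge hfin.toFinset (by rwa [hfin.coe_toFinset])
  have h2 : hfin.toFinset ⊆ W := fun x hx => mem_coe.1 (hC (hfin.mem_toFinset.1 hx))
  have h3 := card_le_card h2
  have h4 : hfin.toFinset = W := eq_of_subset_of_card_le h2 (by omega)
  refine hn (by omega) ?_
  rw [← h4, hfin.coe_toFinset]
  exact hCc

theorem IsPaving.subset_cl (h : IsPaving M r) (W : Finset α) : W ⊆ cl M W := by
  intro x hx
  rw [mem_cl]
  exact M.subset_closure _ (by rw [h.ground]; exact Set.subset_univ _) (mem_coe.2 hx)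

/-- All `r`-subsets of a hyperplane are circuits. -/
theorem IsPaving.circuit_of_cl (h : IsPaving M r) {W S : Finset α} (hW : W.card + 1 = r)
    (hS : S ⊆ cl M W) (hSr : S.card = r) : M.IsCircuit (S : Set α) := by
  by_contra hn
  have h1 : M.Indep (S : Set α) := h.indep hSr.le fun _ => hn
  have h2 : (S : Set α) ⊆ M.closure (W : Set α) := by
    rw [← coe_cl]
    exact Finset.coe_subset.2 hS
  have h3 := h1.encard_le_eRk_of_subset h2
  rw [M.eRk_closure_eq] at h3
  have h4 := h3.trans (M.eRk_le_encard _)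
  rw [Set.encard_coe_eq_coe_finsetCard, Set.encard_coe_eq_coe_finsetCard] at h4
  have : S.card ≤ W.card := by exact_mod_cast h4
  omega

theorem mem_cl_of_circuit {C W : Finset α} {x : α} (hC : M.IsCircuit (C : Set α)) (hx : x ∈ C)
    (h : C.erase x ⊆ cl M W) : x ∈ cl M W := by
  rw [mem_cl]
  have h1 := hC.mem_closure_sdiff_singleton_of_mem (mem_coe.2 hx)
  have h2 : (C : Set α) \ {x} ⊆ M.closure (W : Set α) := by
    rw [← coe_cl, ← coe_erase]
    exact Finset.coe_subset.2 h
  exact Matroid.closure_subset_closure_of_subset_closure h2 h1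

/-- Two hyperplanes have at most `r - 2` common elements. -/
theorem IsPaving.card_inter (h : IsPaving M r) {W W₀ : Finset α} (hW : W.card + 1 = r)
    (hn : ¬ W ⊆ cl M W₀) : (cl M W ∩ cl M W₀).card + 2 ≤ r := by
  by_contra hcon
  obtain ⟨W₁, hW₁, hW₁c⟩ := exists_subset_card_eq (s := cl M W ∩ cl M W₀) (n := r - 1) (by omega)
  apply hn
  intro w hw
  by_cases hw1 : w ∈ W₁
  · exact (mem_inter.1 (hW₁ hw1)).2
  · have hwcl : w ∈ cl M W := h.subset_cl W hw
    have hS : M.IsCircuit ((insert w W₁ : Finset α) : Set α) :=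
      h.circuit_of_cl hW (insert_subset hwcl fun x hx => (mem_inter.1 (hW₁ hx)).1)
        (by rw [card_insert_of_notMem hw1]; omega)
    refine mem_cl_of_circuit hS (mem_insert_self _ _) ?_
    rw [erase_insert hw1]
    exact fun x hx => (mem_inter.1 (hW₁ hx)).2

/-- A set in general position can be extended by an element of a large hyperplane. -/
theorem IsPaving.extend (h : IsPaving M r) (hr : 3 ≤ r) {W₀ P : Finset α}
    (hL : (r - 1) * (r - 1) ≤ (cl M W₀).card) (hP : P.card ≤ r)
    (hout : 2 ≤ (P \ cl M W₀).card)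
    (hPc : ∀ S ⊆ P, S.card = r → ¬ M.IsCircuit (S : Set α)) :
    ∃ a ∈ cl M W₀, a ∉ P ∧ ∀ S ⊆ insert a P, S.card = r → ¬ M.IsCircuit (S : Set α) := by
  classical
  let bad : Finset α := (P ∩ cl M W₀) ∪
    (P.powersetCard (r - 1)).biUnion fun W => cl M W ∩ cl M W₀
  have hPL : ∀ W ⊆ P, W.card + 1 = r → ¬ W ⊆ cl M W₀ := by
    intro W hW hWr hWL
    have h1 : (P \ cl M W₀) ⊆ P \ W := sdiff_subset_sdiff Subset.rfl hWL
    have h2 := card_le_card h1
    rw [card_sdiff_of_subset hW] at h2
    omega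
  have hbad : bad.card < (cl M W₀).card := by
    refine lt_of_lt_of_le ?_ hL
    obtain ⟨s, rfl⟩ : ∃ s, r = s + 3 := ⟨r - 3, by omega⟩
    by_cases hPr : P.card + 1 < s + 3
    · have h1 : P.powersetCard (s + 3 - 1) = ∅ := by
        rw [powersetCard_eq_empty]
        omega
      have h2 : bad.card ≤ P.card := by
        show ((P ∩ cl M W₀) ∪
          (P.powersetCard (s + 3 - 1)).biUnion fun W => cl M W ∩ cl M W₀).card ≤ P.card
        rw [h1, biUnion_empty, union_empty]
        exact card_le_card inter_subset_left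
      have h3 : s + 3 - 1 = s + 2 := by omega
      rw [h3]
      nlinarith
    · have h1 : bad ⊆ (P.powersetCard (s + 3 - 1)).biUnion fun W => cl M W ∩ cl M W₀ := by
        refine union_subset (fun a ha => ?_) Subset.rfl
        obtain ⟨haP, haL⟩ := mem_inter.1 ha
        obtain ⟨W, hW1, hW2, hW3⟩ := exists_subsuperset_card_eq (s := {a}) (t := P)
          (n := s + 3 - 1) (singleton_subset_iff.2 haP) (by rw [card_singleton]; omega) (by omega)
        exact mem_biUnion.2 ⟨W, mem_powersetCard.2 ⟨hW2, hW3⟩,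
          mem_inter.2 ⟨h.subset_cl W (hW1 (mem_singleton_self a)), haL⟩⟩
      have h2 := (card_le_card h1).trans (card_biUnion_le_card_mul _ _ (s + 1) fun W hW => by
        obtain ⟨hW1, hW2⟩ := mem_powersetCard.1 hW
        have := h.card_inter (W := W) (W₀ := W₀) (by omega) (hPL W hW1 (by omega))
        omega)
      rw [card_powersetCard] at h2
      have h3 : P.card.choose (s + 3 - 1) ≤ s + 3 := by
        refine (Nat.choose_le_choose _ hP).trans ?_
        have : s + 3 - 1 = s + 2 := by omega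
        rw [this, Nat.choose_succ_self_right]
      have h4 : s + 3 - 1 = s + 2 := by omega
      have h5 : P.card.choose (s + 3 - 1) * (s + 1) ≤ (s + 3) * (s + 1) :=
        Nat.mul_le_mul_right _ h3
      have h6 : (s + 3) * (s + 1) < (s + 2) * (s + 2) := by nlinarith
      have h7 : (s + 3 - 1) * (s + 3 - 1) = (s + 2) * (s + 2) := by rw [h4]
      rw [h7]
      exact lt_of_le_of_lt (h2.trans h5) h6
  obtain ⟨a, ha, hab⟩ := exists_mem_notMem_of_card_lt_card hbad
  have haP : a ∉ P := fun h => hab (mem_union_left _ (mem_inter.2 ⟨h, ha⟩))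
  refine ⟨a, ha, haP, fun S hS hSr hc => ?_⟩
  by_cases haS : a ∈ S
  · apply hab
    refine mem_union_right _ (mem_biUnion.2 ⟨S.erase a, ?_, mem_inter.2 ⟨?_, ha⟩⟩)
    · rw [mem_powersetCard]
      refine ⟨fun x hx => ?_, by rw [card_erase_of_mem haS]; omega⟩
      rcases mem_insert.1 (hS (mem_of_mem_erase hx)) with h1 | h1
      · exact (ne_of_mem_erase hx h1).elim
      · exact h1
    · exact mem_cl_of_circuit hc haS (h.subset_cl _)
  · exact hPc S ((subset_insert_iff_of_notMem haS).1 hS) hSr hc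

theorem IsPaving.grow (h : IsPaving M r) (hr : 3 ≤ r) {W₀ : Finset α}
    (hL : (r - 1) * (r - 1) ≤ (cl M W₀).card) (k : ℕ) :
    ∀ P : Finset α, P.card + k = r + 1 → 2 ≤ (P \ cl M W₀).card →
    (∀ S ⊆ P, S.card = r → ¬ M.IsCircuit (S : Set α)) →
    ∃ Q : Finset α, P ⊆ Q ∧ Q.card = r + 1 ∧
      ∀ S ⊆ Q, S.card = r → ¬ M.IsCircuit (S : Set α) := by
  induction k with
  | zero =>
    intro P hP h1 h2
    exact ⟨P, Subset.rfl, by omega, h2⟩
  | succ k ih =>
    intro P hP h1 h2
    obtain ⟨a, ha, haP, h3⟩ := h.extend hr hL (by omega) h1 h2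
    obtain ⟨Q, hQ1, hQ2, hQ3⟩ := ih (insert a P) (by rw [card_insert_of_notMem haP]; omega)
      (h1.trans (card_le_card (sdiff_subset_sdiff (subset_insert _ _) Subset.rfl))) h3
    exact ⟨Q, (subset_insert _ _).trans hQ1, hQ2, hQ3⟩

/-- Linking an element outside a large hyperplane with an element of the hyperplane. -/
theorem IsPaving.link_out (h : IsPaving M r) (hr : 3 ≤ r) {W₀ : Finset α}
    (hL : (r - 1) * (r - 1) ≤ (cl M W₀).card) {e a b : α}
    (ha : a ∉ cl M W₀) (hb : b ∉ cl M W₀) (hae : a ≠ e) (hbe : b ≠ e) (hab : a ≠ b)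
    (h3 : r = 3 → ¬ M.IsCircuit (({e, a, b} : Finset α) : Set α)) :
    ∃ x ∈ cl M W₀, ∃ X : Finset α, e ∉ X ∧ x ∉ X ∧ X.card = r ∧
      M.IsCircuit ((insert e X : Finset α) : Set α) ∧
      M.IsCircuit ((insert x X : Finset α) : Set α) := by
  have hcard : ({e, a, b} : Finset α).card = 3 := by
    rw [card_insert_of_notMem, card_pair hab]
    simp only [mem_insert, mem_singleton, not_or]
    exact ⟨hae.symm, hbe.symm⟩
  have hout : 2 ≤ (({e, a, b} : Finset α) \ cl M W₀).card := by
    have : ({a, b} : Finset α) ⊆ ({e, a, b} : Finset α) \ cl M W₀ := by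
      intro x hx
      simp only [mem_insert, mem_singleton] at hx
      rcases hx with rfl | rfl
      · exact mem_sdiff.2 ⟨by simp, ha⟩
      · exact mem_sdiff.2 ⟨by simp, hb⟩
    have := card_le_card this
    rwa [card_pair hab] at this
  obtain ⟨Q, hQ1, hQ2, hQ3⟩ := h.grow hr hL (r - 2) {e, a, b} (by omega) hout (by
    intro S hS hSr hc
    have h4 := card_le_card hS
    have h5 : S = {e, a, b} := eq_of_subset_of_card_le hS (by omega)
    rw [h5] at hc
    exact h3 (by omega) hc)
  have heQ : e ∈ Q := hQ1 (by simp)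
  have hXc : (Q.erase e).card = r := by
    rw [card_erase_of_mem heQ]
    omega
  have hXo : 2 ≤ (Q.erase e \ cl M W₀).card := by
    have : ({a, b} : Finset α) ⊆ Q.erase e \ cl M W₀ := by
      intro x hx
      simp only [mem_insert, mem_singleton] at hx
      rcases hx with rfl | rfl
      · exact mem_sdiff.2 ⟨mem_erase.2 ⟨hae, hQ1 (by simp)⟩, ha⟩
      · exact mem_sdiff.2 ⟨mem_erase.2 ⟨hbe, hQ1 (by simp)⟩, hb⟩
    have := card_le_card this
    rwa [card_pair hab] at this
  obtain ⟨x, hx, hxX, hx3⟩ := h.extend hr hL hXc.le hXo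
    (fun S hS hSr => hQ3 S (hS.trans (erase_subset _ _)) hSr)
  refine ⟨x, hx, Q.erase e, notMem_erase _ _, hxX, hXc, ?_, ?_⟩
  · rw [insert_erase heQ]
    exact h.circuit hQ2 hQ3
  · exact h.circuit (by rw [card_insert_of_notMem hxX, hXc]) hx3

/-- The elements of a large hyperplane are linked. -/
theorem IsPaving.link_in (h : IsPaving M r) {W₀ : Finset α} (hW₀ : W₀.card + 1 = r)
    (hL : r + 1 ≤ (cl M W₀).card) {x y : α} (hx : x ∈ cl M W₀) (hy : y ∈ cl M W₀)
    (hxy : x ≠ y) : Exch M x y := by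
  have h1 : ({x, y} : Finset α) ⊆ cl M W₀ := by
    intro z hz
    simp only [mem_insert, mem_singleton] at hz
    rcases hz with rfl | rfl <;> assumption
  obtain ⟨X, hX, hXc⟩ := exists_subset_card_eq (s := cl M W₀ \ {x, y}) (n := r - 1) (by
    rw [card_sdiff_of_subset h1, card_pair hxy]
    omega)
  have hxX : x ∉ X := fun h => by
    have := hX h
    simp at this
  have hyX : y ∉ X := fun h => by
    have := hX h
    simp at this
  have hXL : X ⊆ cl M W₀ := hX.trans sdiff_subset
  refine ⟨X, hxX, hyX, ?_, ?_⟩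
  · exact h.circuit_of_cl hW₀ (insert_subset hx hXL) (by rw [card_insert_of_notMem hxX]; omega)
  · exact h.circuit_of_cl hW₀ (insert_subset hy hXL) (by rw [card_insert_of_notMem hyX]; omega)

theorem exch_symm {e f : α} (h : Exch M e f) : Exch M f e := by
  obtain ⟨X, h1, h2, h3, h4⟩ := h
  exact ⟨X, h2, h1, h4, h3⟩

/-- Elements outside a hyperplane of a cosimple paving matroid. -/
theorem IsPaving.exists_out (h : IsPaving M r) (hr : 3 ≤ r) {W₀ : Finset α}
    (hW₀ : W₀.card + 1 = r)
    (hco : ∀ e f : α, e ≠ f → ∃ C : Finset α, M.IsCircuit (C : Set α) ∧ e ∈ C ∧ f ∉ C)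
    (h3 : r = 3 → ∀ W W' : Finset α, W.card = 2 → W'.card = 2 →
      ∃ x, x ∉ M.closure (W : Set α) ∧ x ∉ M.closure (W' : Set α))
    {e : α} (he : e ∉ cl M W₀) :
    ∃ a b, a ∉ cl M W₀ ∧ b ∉ cl M W₀ ∧ a ≠ e ∧ b ≠ e ∧ a ≠ b ∧
      (r = 3 → ¬ M.IsCircuit (({e, a, b} : Finset α) : Set α)) := by
  have key : ∀ C : Finset α, M.IsCircuit (C : Set α) → e ∈ C → ∃ g ∈ C, g ≠ e ∧ g ∉ cl M W₀ := by
    intro C hC heC
    by_contra hcon
    push Not at hcon
    exact he (mem_cl_of_circuit hC heC fun x hx => hcon x (mem_of_mem_erase hx)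
      (ne_of_mem_erase hx))
  obtain ⟨f₀, hf₀⟩ : W₀.Nonempty := by
    rw [← card_pos]
    omega
  have hef₀ : e ≠ f₀ := fun h1 => he (h1 ▸ h.subset_cl W₀ hf₀)
  obtain ⟨C₁, hC₁, heC₁, -⟩ := hco e f₀ hef₀
  obtain ⟨a, -, hae, haL⟩ := key C₁ hC₁ heC₁
  by_cases hr3 : r = 3
  · obtain ⟨b, hb1, hb2⟩ := h3 hr3 W₀ {e, a} (by omega) (card_pair hae.symm)
    have hbL : b ∉ cl M W₀ := fun h => hb1 (mem_cl.1 h)
    have hb2' : b ∉ cl M {e, a} := fun h => hb2 (mem_cl.1 h)
    have hbe : b ≠ e := fun h1 => hb2' (h.subset_cl _ (by simp [h1]))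
    have hba : b ≠ a := fun h1 => hb2' (h.subset_cl _ (by simp [h1]))
    refine ⟨a, b, haL, hbL, hae, hbe, hba.symm, fun _ hc => hb2' ?_⟩
    refine mem_cl_of_circuit hc (by simp) fun x hx => h.subset_cl _ ?_
    have h1 := mem_of_mem_erase hx
    have h2 := ne_of_mem_erase hx
    simp only [mem_insert, mem_singleton] at h1 ⊢
    tauto
  · obtain ⟨C₂, hC₂, heC₂, haC₂⟩ := hco e a hae.symm
    obtain ⟨b, hbC, hbe, hbL⟩ := key C₂ hC₂ heC₂
    exact ⟨a, b, haL, hbL, hae, hbe, fun h1 => haC₂ (h1 ▸ hbC), fun h1 => (hr3 h1).elim⟩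

/-- The equivalence for paving matroids. -/
theorem IsPaving.iff (h : IsPaving M r) (hr : 3 ≤ r)
    (hn : (2 * r - 1) * ((r - 1) * (r - 1) - r) + r + 2 ≤ Fintype.card α)
    (hco : ∀ e f : α, e ≠ f → ∃ C : Finset α, M.IsCircuit (C : Set α) ∧ e ∈ C ∧ f ∉ C)
    (h3 : r = 3 → ∀ W W' : Finset α, W.card = 2 → W'.card = 2 →
      ∃ x, x ∉ M.closure (W : Set α) ∧ x ∉ M.closure (W' : Set α)) :
    HilbertBasis M ↔ ∀ C : Finset α, M.IsCircuit (C : Set α) ↔ C.card = r + 1 := by
  have hsq : r + 1 ≤ (r - 1) * (r - 1) := by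
    obtain ⟨s, rfl⟩ : ∃ s, r = s + 3 := ⟨r - 3, by omega⟩
    have : s + 3 - 1 = s + 2 := by omega
    rw [this]
    nlinarith
  by_cases hbig : ∃ W₀ : Finset α, W₀.card + 1 = r ∧ (r - 1) * (r - 1) ≤ (cl M W₀).card
  · obtain ⟨W₀, hW₀, hL⟩ := hbig
    -- every element is linked with an element of the hyperplane
    have hto : ∀ e, ∃ x ∈ cl M W₀, Relation.ReflTransGen (Exch M) e x ∧
        Relation.ReflTransGen (Exch M) x e := by
      intro e
      by_cases he : e ∈ cl M W₀
      · exact ⟨e, he, Relation.ReflTransGen.refl, Relation.ReflTransGen.refl⟩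
      · obtain ⟨a, b, h1, h2, h4, h5, h6, h7⟩ := h.exists_out hr hW₀ hco h3 he
        obtain ⟨x, hx, X, h8, h9, -, h10, h11⟩ := h.link_out hr hL h1 h2 h4 h5 h6 h7
        exact ⟨x, hx, Relation.ReflTransGen.single ⟨X, h8, h9, h10, h11⟩,
          Relation.ReflTransGen.single ⟨X, h9, h8, h11, h10⟩⟩
    refine iff_of_linked h (by omega) (fun e f => ?_) ?_
    · obtain ⟨x, hx, hex, -⟩ := hto e
      obtain ⟨y, hy, -, hyf⟩ := hto f
      by_cases hxy : x = y
      · subst hxy
        exact hex.trans hyf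
      · exact (hex.tail (h.link_in hW₀ (hsq.trans hL) hx hy hxy)).trans hyf
    · obtain ⟨e, he⟩ : ∃ e, e ∉ cl M W₀ := by
        by_contra hcon
        push Not at hcon
        obtain ⟨B, hB, hBi⟩ := h.rank
        exact (h.circuit_of_cl hW₀ (fun x _ => hcon x) hB).not_indep hBi
      obtain ⟨a, b, h1, h2, h4, h5, h6, h7⟩ := h.exists_out hr hW₀ hco h3 he
      obtain ⟨x, hx, X, h8, h9, hX, h10, h11⟩ := h.link_out hr hL h1 h2 h4 h5 h6 h7
      exact ⟨insert e X, by rw [card_insert_of_notMem h8, hX], h10⟩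
  · push Not at hbig
    have ht : ∀ W : Finset α, W.card + 1 = r → (ext M W).card ≤ (r - 1) * (r - 1) - r := by
      intro W hW
      have h1 : W ∪ ext M W ⊆ cl M W := by
        refine union_subset (h.subset_cl W) fun y hy => ?_
        obtain ⟨hyW, hyc⟩ := mem_ext.1 hy
        refine mem_cl_of_circuit hyc (mem_insert_self _ _) ?_
        rw [erase_insert hyW]
        exact h.subset_cl W
      have h2 := card_le_card h1
      rw [card_union_of_disjoint] at h2
      · have := hbig W hW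
        omega
      · rw [disjoint_right]
        intro y hy
        exact (mem_ext.1 hy).1
    have hex := fun (e f : α) (hef : e ≠ f) => exch_of_paving h (by omega) ht hn hef
    refine iff_of_linked h (by omega) (fun e f => ?_) ?_
    · by_cases hef : e = f
      · subst hef
        exact Relation.ReflTransGen.refl
      · obtain ⟨X, h1, h2, -, h4, h5⟩ := hex e f hef
        exact Relation.ReflTransGen.single ⟨X, h1, h2, h4, h5⟩
    · obtain ⟨e, f, hef⟩ := Fintype.exists_pair_of_one_lt_card (α := α) (by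
        have := Nat.zero_le ((2 * r - 1) * ((r - 1) * (r - 1) - r))
        omega)
      obtain ⟨X, h1, h2, hX, h4, h5⟩ := hex e f hef
      exact ⟨insert e X, by rw [card_insert_of_notMem h1, hX], h4⟩

/-- The usual definition of a paving matroid of rank `r`. -/
theorem isPaving (hE : M.E = Set.univ) (hrank : M.eRank = r)
    (hpav : ∀ C : Finset α, M.IsCircuit (C : Set α) → r ≤ C.card) : IsPaving M r := by
  have hle : ∀ S : Finset α, M.Indep (S : Set α) → S.card ≤ r := by
    intro S hS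
    have h1 := hS.encard_le_eRank
    rw [hrank, Set.encard_coe_eq_coe_finsetCard] at h1
    exact_mod_cast h1
  refine ⟨hE, ?_, fun S hS => ?_, hpav, fun C hC => ?_⟩
  · obtain ⟨B, hB⟩ := M.exists_isBase
    have hfin : B.Finite := Set.toFinite B
    refine ⟨hfin.toFinset, ?_, by rw [hfin.coe_toFinset]; exact hB.indep⟩
    have h1 := hB.encard_eq_eRank
    rw [hrank, hfin.encard_eq_coe_toFinset_card] at h1
    exact_mod_cast h1
  · by_contra hcon
    push Not at hcon
    have h1 : M.Indep (S : Set α) := by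
      rw [Matroid.indep_iff_forall_subset_not_isCircuit (by rw [hE]; exact Set.subset_univ _)]
      intro C hC hCc
      have hfin : C.Finite := Set.toFinite C
      refine hcon hfin.toFinset (fun x hx => mem_coe.1 (hC (hfin.mem_toFinset.1 hx))) ?_
      rwa [hfin.coe_toFinset]
    have := hle S h1
    omega
  · obtain ⟨x, hx⟩ := hC.nonempty
    have h1 := hC.sdiff_singleton_indep hx
    rw [← coe_erase] at h1
    have h2 := hle _ h1
    rw [card_erase_of_mem (mem_coe.1 hx)] at h2
    omega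

/-- The equivalence for paving matroids in terms of the usual definitions. -/
theorem paving_iff (hr : 3 ≤ r) (hE : M.E = Set.univ) (hrank : M.eRank = r)
    (hpav : ∀ C : Finset α, M.IsCircuit (C : Set α) → r ≤ C.card)
    (hco : ∀ e f : α, e ≠ f → ∃ C : Finset α, M.IsCircuit (C : Set α) ∧ e ∈ C ∧ f ∉ C)
    (h3 : r = 3 → ∀ W W' : Finset α, W.card = 2 → W'.card = 2 →
      ∃ x, x ∉ M.closure (W : Set α) ∧ x ∉ M.closure (W' : Set α))
    (hn : 2 * r ^ 3 + 6 * r + 1 ≤ Fintype.card α + 7 * r ^ 2) :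
    HilbertBasis M ↔ ∀ C : Finset α, M.IsCircuit (C : Set α) ↔ C.card = r + 1 := by
  refine (isPaving hE hrank hpav).iff hr ?_ hco h3
  obtain ⟨s, rfl⟩ : ∃ s, r = s + 3 := ⟨r - 3, by omega⟩
  have h1 : 2 * (s + 3) - 1 = 2 * s + 5 := by omega
  have h2 : s + 3 - 1 = s + 2 := by omega
  have h4 : (s + 2) * (s + 2) - (s + 3) = s * s + 3 * s + 1 := by
    have : (s + 2) * (s + 2) = (s * s + 3 * s + 1) + (s + 3) := by ring
    rw [this, Nat.add_sub_cancel]
  rw [h1, h2, h4]
  have h5 : (2 * s + 5) * (s * s + 3 * s + 1) + (s + 3) + 2 + 7 * (s + 3) ^ 2 =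
      2 * (s + 3) ^ 3 + 6 * (s + 3) + 1 := by ring
  omega

end Pool.Agent.Q114.HB
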