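import Pool.Agent.Q114.HB.Uniform

set_option autoImplicit false
set_option linter.unusedSectionVars false

/-!
Paving matroids with small hyperplanes, and uniform matroids.
-/

namespace Pool.Agent.Q114.HB

open Finset

variable {α : Type} [Fintype α] [DecidableEq α]

/-- `M` is a paving matroid of rank `r` on the whole type: there is an independent set of `r` elements,
every set of more than `r` elements contains a circuit, and all circuits have at least `r` (and
at most `r + 1`) elements. -/
structure IsPaving (M : Matroid α) (r : ℕ) : Prop where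
  ground : M.E = Set.univ
  rank : ∃ B : Finset α, B.card = r ∧ M.Indep (B : Set α)
  dep : ∀ S : Finset α, r < S.card → ∃ C ⊆ S, M.IsCircuit (C : Set α)
  ge : ∀ C : Finset α, M.IsCircuit (C : Set α) → r ≤ C.card
  le : ∀ C : Finset α, M.IsCircuit (C : Set α) → C.card ≤ r + 1

/-- The elements which together with `W` form a circuit. -/
noncomputable def ext (M : Matroid α) (W : Finset α) : Finset α := by
  classical exact univ.filter fun y => y ∉ W ∧ M.IsCircuit ((insert y W : Finset α) : Set α)

theorem mem_ext {M : Matroid α} {W : Finset α} {y : α} :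
    y ∈ ext M W ↔ y ∉ W ∧ M.IsCircuit ((insert y W : Finset α) : Set α) := by
  simp [ext]

/-- A set of `r + 1` elements without circuits of size `r` is a circuit. -/
theorem IsPaving.circuit {M : Matroid α} {r : ℕ} (h : IsPaving M r) {S : Finset α}
    (hS : S.card = r + 1) (hn : ∀ C ⊆ S, C.card = r → ¬ M.IsCircuit (C : Set α)) :
    M.IsCircuit (S : Set α) := by
  obtain ⟨C, hCS, hC⟩ := h.dep S (by omega)
  have h1 := h.ge C hC
  have h2 := h.le C hC
  have h3 : C.card ≠ r := fun h3 => hn C hCS h3 hC
  have h4 : C = S := eq_of_subset_of_card_le hCS (by omega)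
  rwa [h4] at hC

/-- In a paving matroid with small hyperplanes all elements can be exchanged. -/
theorem exch_of_paving {M : Matroid α} {r t : ℕ} (h : IsPaving M r) (hr : 2 ≤ r)
    (ht : ∀ W : Finset α, W.card + 1 = r → (ext M W).card ≤ t)
    (hn : (2 * r - 1) * t + r + 2 ≤ Fintype.card α) {e f : α} (hef : e ≠ f) :
    ∃ X : Finset α, e ∉ X ∧ f ∉ X ∧ X.card = r ∧ M.IsCircuit ((insert e X : Finset α) : Set α) ∧
      M.IsCircuit ((insert f X : Finset α) : Set α) := by
  classical
  obtain ⟨s, rfl⟩ : ∃ s, r = s + 2 := ⟨r - 2, by omega⟩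
  have hn' : 2 * t + (2 * s + 1) * t + s + 4 ≤ Fintype.card α := by
    have : 2 * (s + 2) - 1 = 2 + (2 * s + 1) := by omega
    rw [this] at hn
    nlinarith
  have hV : ((univ : Finset α) \ {e, f}).card = Fintype.card α - 2 := by
    rw [card_sdiff_of_subset (subset_univ _), card_pair hef, card_univ]
  -- the set `Z` of `r - 2` elements
  obtain ⟨Z, hZV, hZ⟩ := exists_subset_card_eq (s := (univ : Finset α) \ {e, f}) (n := s)
    (by
      rw [hV]
      have h6 : 0 ≤ (2 * s + 1) * t := Nat.zero_le _
      omega)
  have heZ : e ∉ Z := fun h => by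
    have := hZV h
    simp at this
  have hfZ : f ∉ Z := fun h => by
    have := hZV h
    simp at this
  -- the point `y₀`
  obtain ⟨y₀, hy₀⟩ : ((((univ : Finset α) \ {e, f}) \ Z) \
      (ext M (insert e Z) ∪ ext M (insert f Z))).Nonempty := by
    rw [← card_pos]
    have h1 : (((univ : Finset α) \ {e, f}) \ Z).card = Fintype.card α - 2 - s := by
      rw [card_sdiff_of_subset hZV, hV, hZ]
    have h2 := le_card_sdiff (ext M (insert e Z) ∪ ext M (insert f Z))
      (((univ : Finset α) \ {e, f}) \ Z)
    have h3 := card_union_le (ext M (insert e Z)) (ext M (insert f Z))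
    have h4 := ht (insert e Z) (by rw [card_insert_of_notMem heZ, hZ])
    have h5 := ht (insert f Z) (by rw [card_insert_of_notMem hfZ, hZ])
    have h6 : 0 ≤ (2 * s + 1) * t := Nat.zero_le _
    omega
  simp only [mem_sdiff, mem_univ, true_and, mem_insert, mem_singleton, not_or, mem_union] at hy₀
  obtain ⟨⟨⟨hy₀e, hy₀f⟩, hy₀Z⟩, hy₀1, hy₀2⟩ := hy₀
  let Y : Finset α := insert y₀ Z
  have hY : Y.card = s + 1 := by
    show (insert y₀ Z).card = s + 1
    rw [card_insert_of_notMem hy₀Z, hZ]
  have heY : e ∉ Y := by
    show e ∉ insert y₀ Z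
    rw [mem_insert, not_or]
    exact ⟨fun h => hy₀e h.symm, heZ⟩
  have hfY : f ∉ Y := by
    show f ∉ insert y₀ Z
    rw [mem_insert, not_or]
    exact ⟨fun h => hy₀f h.symm, hfZ⟩
  have hYe : ¬ M.IsCircuit ((insert e Y : Finset α) : Set α) := by
    intro hc
    apply hy₀1
    rw [mem_ext]
    refine ⟨?_, ?_⟩
    · rw [mem_insert, not_or]
      exact ⟨hy₀e, hy₀Z⟩
    · rw [insert_comm]
      exact hc
  have hYf : ¬ M.IsCircuit ((insert f Y : Finset α) : Set α) := by
    intro hc
    apply hy₀2
    rw [mem_ext]
    refine ⟨?_, ?_⟩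
    · rw [mem_insert, not_or]
      exact ⟨hy₀f, hy₀Z⟩
    · rw [insert_comm]
      exact hc
  -- the point `y`
  let bad : α → Finset α := fun u => Y.biUnion fun z => ext M (insert u (Y.erase z))
  have hbad : ∀ u, u ∉ Y → (bad u).card ≤ (s + 1) * t := by
    intro u hu
    refine (card_biUnion_le_card_mul _ _ t fun z hz => ht _ ?_).trans (by rw [hY])
    rw [card_insert_of_notMem fun h => hu (mem_of_mem_erase h), card_erase_of_mem hz, hY]
    omega
  have hYV : Y ⊆ (univ : Finset α) \ {e, f} := by
    intro x hx
    simp only [mem_sdiff, mem_univ, true_and, mem_insert, mem_singleton, not_or]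
    exact ⟨fun h => heY (h ▸ hx), fun h => hfY (h ▸ hx)⟩
  obtain ⟨y, hy⟩ : ((((univ : Finset α) \ {e, f}) \ Y) \
      (ext M Y ∪ (bad e ∪ bad f))).Nonempty := by
    rw [← card_pos]
    have h1 : (((univ : Finset α) \ {e, f}) \ Y).card = Fintype.card α - 2 - (s + 1) := by
      rw [card_sdiff_of_subset hYV, hV, hY]
    have h2 := le_card_sdiff (ext M Y ∪ (bad e ∪ bad f)) (((univ : Finset α) \ {e, f}) \ Y)
    have h3 := card_union_le (ext M Y) (bad e ∪ bad f)
    have h4 := card_union_le (bad e) (bad f)
    have h5 := ht Y (by rw [hY])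
    have h6 := hbad e heY
    have h7 := hbad f hfY
    have h8 : t + ((s + 1) * t + (s + 1) * t) = 2 * t + (2 * s + 1) * t := by ring
    omega
  simp only [mem_sdiff, mem_univ, true_and, mem_insert, mem_singleton, not_or, mem_union] at hy
  obtain ⟨⟨⟨hye, hyf⟩, hyY⟩, hy1, hy2, hy3⟩ := hy
  -- the two circuits
  have main : ∀ u, u ∉ Y → y ≠ u → ¬ M.IsCircuit ((insert u Y : Finset α) : Set α) →
      y ∉ bad u → M.IsCircuit ((insert u (insert y Y) : Finset α) : Set α) := by
    intro u hu hyu hnu hyb
    have hu' : u ∉ insert y Y := by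
      rw [mem_insert, not_or]
      exact ⟨fun h => hyu h.symm, hu⟩
    have hcard : (insert u (insert y Y) : Finset α).card = s + 2 + 1 := by
      rw [card_insert_of_notMem hu', card_insert_of_notMem hyY, hY]
    refine h.circuit hcard fun C hC hCc hcirc => ?_
    -- `C` misses exactly one point `z`
    have hsd : ((insert u (insert y Y) : Finset α) \ C).card = 1 := by
      rw [card_sdiff_of_subset hC, hcard, hCc]
      omega
    obtain ⟨z, hz⟩ := card_eq_one.1 hsd
    have hCz : C = (insert u (insert y Y) : Finset α).erase z := by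
      rw [← sdiff_singleton_eq_erase, ← hz, Finset.sdiff_sdiff_eq_self hC]
    have hzm : z ∈ insert u (insert y Y) := by
      have : z ∈ (insert u (insert y Y) : Finset α) \ C := by rw [hz]; exact mem_singleton_self z
      exact (mem_sdiff.1 this).1
    rw [mem_insert, mem_insert] at hzm
    rcases hzm with rfl | rfl | hzY
    · -- `C = insert y Y`
      rw [erase_insert hu'] at hCz
      subst hCz
      exact hy1 (mem_ext.2 ⟨hyY, hcirc⟩)
    · -- `C = insert u Y`
      have : (insert u (insert z Y) : Finset α).erase z = insert u Y := by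
        rw [insert_comm, erase_insert]
        rw [mem_insert, not_or]
        exact ⟨hyu, hyY⟩
      rw [this] at hCz
      subst hCz
      exact hnu hcirc
    · -- `C = insert u (insert y (Y.erase z))`
      have hzu : z ≠ u := fun h => hu (h ▸ hzY)
      have hzy : z ≠ y := fun h => hyY (h ▸ hzY)
      have : (insert u (insert y Y) : Finset α).erase z =
          insert y (insert u (Y.erase z)) := by
        rw [erase_insert_of_ne hzu.symm, erase_insert_of_ne hzy.symm, insert_comm]
      rw [this] at hCz
      subst hCz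
      apply hyb
      refine mem_biUnion.2 ⟨z, hzY, mem_ext.2 ⟨?_, hcirc⟩⟩
      rw [mem_insert, not_or]
      exact ⟨hyu, fun h => hyY (mem_of_mem_erase h)⟩
  refine ⟨insert y Y, ?_, ?_, ?_, main e heY hye hYe hy2, main f hfY hyf hYf hy3⟩
  · rw [mem_insert, not_or]
    exact ⟨fun h => hye h.symm, heY⟩
  · rw [mem_insert, not_or]
    exact ⟨fun h => hyf h.symm, hfY⟩
  · rw [card_insert_of_notMem hyY, hY]

/-- If all elements of a paving matroid are linked and there is a circuit of size `r + 1`, the
circuits form a Hilbert basis only if the matroid is uniform. -/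
theorem iff_of_linked {M : Matroid α} {r : ℕ} (h : IsPaving M r) (hr : 2 ≤ r)
    (hlink : ∀ e f : α, Relation.ReflTransGen (Exch M) e f)
    (hC : ∃ C : Finset α, C.card = r + 1 ∧ M.IsCircuit (C : Set α)) :
    HilbertBasis M ↔ ∀ C : Finset α, M.IsCircuit (C : Set α) ↔ C.card = r + 1 := by
  refine ⟨fun hHB => ?_, fun hU => hilbert_of_uniform (by omega) hU⟩
  obtain ⟨C₀, hC₀, hC₀'⟩ := hC
  obtain ⟨g, hg2, hg, -⟩ := main M (fun e he => by
    have := h.ge {e} (by rw [coe_singleton]; exact he)
    rw [card_singleton] at this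
    omega) ⟨C₀, hC₀'⟩ (fun e f _ _ => hlink e f) hHB
  have h1 : ∀ C : Finset α, M.IsCircuit (C : Set α) → C.card = r + 1 := by
    intro C hC
    by_contra hne
    have h2 := h.ge C hC
    have h3 := h.le C hC
    have h4 : C.card = r := by omega
    have h5 := hg C hC
    have h6 := hg C₀ hC₀'
    rw [h4] at h5
    rw [hC₀] at h6
    have h7 := (Nat.dvd_add_right h5).1 h6
    have := Nat.le_of_dvd one_pos h7
    omega
  intro C
  refine ⟨h1 C, fun hC => h.circuit hC fun D _ hD hDc => ?_⟩
  have := h1 D hDc
  omega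

end Pool.Agent.Q114.HB
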