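import Pool.Agent.Q114.HB.Basic

set_option autoImplicit false
set_option linter.unusedSectionVars false

/-!
The matroids of rank three on two disjoint lines.
-/

namespace Pool.Agent.Q114.HB

open Finset

variable {α : Type} [Fintype α] [DecidableEq α]

/-- The circuits are the sets of three elements on one of the two lines `L` and its complement, and
the sets with two elements of each of them. -/
def TwoLines (M : Matroid α) (L : Finset α) : Prop :=
  ∀ C : Finset α, M.IsCircuit (C : Set α) ↔
    (C.card = 3 ∧ (C ⊆ L ∨ Disjoint C L)) ∨ ((C ∩ L).card = 2 ∧ (C \ L).card = 2)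

theorem pick {p : α → ℤ} {S : Finset α} {m s : ℕ} (hm : 0 < m) (h0 : ∀ x ∈ S, 0 ≤ p x)
    (h1 : ∀ x ∈ S, p x ≤ m) (hlo : ((s : ℤ) - 1) * m < ∑ x ∈ S, p x)
    (hhi : ∑ x ∈ S, p x ≤ s * m) :
    ∃ T ⊆ S, T.card = s ∧ (∀ x ∈ S, p x = m → x ∈ T) ∧ ∀ x ∈ T, p x ≠ 0 := by
  have hm' : (0 : ℤ) < m := by exact_mod_cast hm
  let A : Finset α := S.filter fun x => p x = m
  let B : Finset α := S.filter fun x => p x ≠ 0
  have hAB : A ⊆ B := by
    intro x hx
    have hx' := (mem_filter.1 hx).2
    exact mem_filter.2 ⟨(mem_filter.1 hx).1, by omega⟩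
  have hA : A.card ≤ s := by
    have e1 : (A.card : ℤ) * m ≤ ∑ x ∈ S, p x := by
      calc (A.card : ℤ) * m = ∑ x ∈ A, p x := by
            rw [sum_congr rfl fun x hx => (mem_filter.1 hx).2, sum_const, nsmul_eq_mul]
        _ ≤ ∑ x ∈ S, p x := sum_le_sum_of_subset_of_nonneg (filter_subset _ _)
            fun x hx _ => h0 x hx
    have := le_of_mul_le_mul_right (e1.trans hhi) hm'
    exact_mod_cast this
  have hB : s ≤ B.card := by
    have e1 : ∑ x ∈ S, p x ≤ (B.card : ℤ) * m := by
      calc ∑ x ∈ S, p x = ∑ x ∈ B, p x := by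
            symm
            refine sum_subset (filter_subset _ _) fun x hxL hx => ?_
            by_contra h
            exact hx (mem_filter.2 ⟨hxL, h⟩)
        _ ≤ ∑ x ∈ B, (m : ℤ) := sum_le_sum fun x hx => h1 x (mem_filter.1 hx).1
        _ = (B.card : ℤ) * m := by rw [sum_const, nsmul_eq_mul]
    have := lt_of_mul_lt_mul_right (lt_of_lt_of_le hlo e1) hm'.le
    omega
  obtain ⟨T, hAT, hTB, hT⟩ := exists_subsuperset_card_eq hAB hA hB
  exact ⟨T, hTB.trans (filter_subset _ _), hT, fun x hx hp => hAT (mem_filter.2 ⟨hx, hp⟩),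
    fun x hx => (mem_filter.1 (hTB hx)).2⟩

theorem intCone_add {M : Matroid α} {p : α → ℤ} {D : Finset α} (hD : M.IsCircuit (D : Set α))
    (h : InIntCone M (fun x => p x - if x ∈ D then 1 else 0)) : InIntCone M p := by
  obtain ⟨c, hc0, hc1, hc2⟩ := h
  refine ⟨fun C => c C + if C = D then 1 else 0, fun C => ?_, fun C hC => ?_, fun x => ?_⟩
  · have := hc0 C
    show (0 : ℤ) ≤ c C + if C = D then 1 else 0
    split_ifs <;> omega
  · by_cases h : c C = 0
    · have e2 : C = D := by
        by_contra h3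
        apply hC
        show c C + (if C = D then 1 else 0) = 0
        rw [h, if_neg h3, add_zero]
      rw [e2]
      exact hD
    · exact hc1 C h
  · have e2 := hc2 x
    have e3 : ∑ C : Finset α, (if x ∈ C then c C + (if C = D then (1 : ℤ) else 0) else 0) =
        ∑ C : Finset α, (if x ∈ C then c C else 0) +
          ∑ C : Finset α, (if C = D then (if x ∈ C then (1 : ℤ) else 0) else 0) := by
      rw [← sum_add_distrib]
      refine sum_congr rfl fun C _ => ?_
      split_ifs <;> simp
    rw [e3, ← e2, sum_ite_eq' univ D, if_pos (mem_univ _)]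
    ring

theorem sum_sub_ind (p : α → ℤ) {S D : Finset α} {s : ℕ} (h : (D ∩ S).card = s) :
    ∑ x ∈ S, (p x - if x ∈ D then 1 else 0) = ∑ x ∈ S, p x - s := by
  rw [sum_sub_distrib, sum_ite_mem, sum_const, inter_comm, h]
  simp

theorem two_aux {M : Matroid α} {L : Finset α} (hM : TwoLines M L) (N : ℕ) :
    ∀ (k t₁ t₂ : ℕ), k + t₁ + t₂ = N → ∀ p : α → ℤ, (∀ x, 0 ≤ p x) →
      (∀ x ∈ L, p x ≤ k + t₁) → (∀ x ∈ univ \ L, p x ≤ k + t₂) →
      ∑ x ∈ L, p x = 2 * k + 3 * t₁ → ∑ x ∈ univ \ L, p x = 2 * k + 3 * t₂ → InIntCone M p := by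
  induction N with
  | zero =>
    intro k t₁ t₂ hk p h0 h1 h2 _ _
    refine ⟨fun _ => 0, fun _ => le_rfl, fun C h => (h rfl).elim, fun x => ?_⟩
    have e0 := h0 x
    have : p x = 0 := by
      by_cases hx : x ∈ L
      · have := h1 x hx
        omega
      · have := h2 x (mem_sdiff.2 ⟨mem_univ x, hx⟩)
        omega
    rw [this]
    simp
  | succ N ih =>
    intro k t₁ t₂ hk p h0 h1 h2 hs1 hs2
    by_cases ht1 : 0 < t₁
    · -- remove a triple in `L`
      obtain ⟨T, hTL, hT, hT1, hT2⟩ := pick (p := p) (S := L) (m := k + t₁) (s := 3) (by omega)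
        (fun x _ => h0 x) (fun x hx => by have := h1 x hx; push_cast; omega)
        (by rw [hs1]; push_cast; omega) (by rw [hs1]; push_cast; omega)
      have hTd : Disjoint T (univ \ L) := disjoint_left.2 fun x hx hx' => (mem_sdiff.1 hx').2 (hTL hx)
      refine intCone_add (D := T) ((hM T).2 (Or.inl ⟨hT, Or.inl hTL⟩)) ?_
      refine ih k (t₁ - 1) t₂ (by omega) _ (fun x => ?_) (fun x hx => ?_) (fun x hx => ?_) ?_ ?_
      · have := h0 x
        split_ifs with h
        · have := hT2 x h
          omega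
        · omega
      · have e1 := h1 x hx
        split_ifs with h
        · omega
        · have : p x ≠ ((k + t₁ : ℕ) : ℤ) := fun e => h (hT1 x hx e)
          push_cast at this
          omega
      · have := h2 x hx
        split_ifs <;> omega
      · rw [sum_sub_ind p (s := 3) (by rw [inter_eq_left.2 hTL, hT]), hs1]
        push_cast
        omega
      · rw [sum_sub_ind p (s := 0) (by rw [disjoint_iff_inter_eq_empty.1 hTd, card_empty]), hs2]
        push_cast
        omega
    by_cases ht2 : 0 < t₂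
    · obtain ⟨T, hTL, hT, hT1, hT2⟩ := pick (p := p) (S := univ \ L) (m := k + t₂) (s := 3)
        (by omega) (fun x _ => h0 x) (fun x hx => by have := h2 x hx; push_cast; omega)
        (by rw [hs2]; push_cast; omega) (by rw [hs2]; push_cast; omega)
      have hTd : Disjoint T L := disjoint_left.2 fun x hx hx' => (mem_sdiff.1 (hTL hx)).2 hx'
      refine intCone_add (D := T) ((hM T).2 (Or.inl ⟨hT, Or.inr hTd⟩)) ?_
      refine ih k t₁ (t₂ - 1) (by omega) _ (fun x => ?_) (fun x hx => ?_) (fun x hx => ?_) ?_ ?_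
      · have := h0 x
        split_ifs with h
        · have := hT2 x h
          omega
        · omega
      · have := h1 x hx
        split_ifs <;> omega
      · have e1 := h2 x hx
        split_ifs with h
        · omega
        · have : p x ≠ ((k + t₂ : ℕ) : ℤ) := fun e => h (hT1 x hx e)
          push_cast at this
          omega
      · rw [sum_sub_ind p (s := 0) (by rw [disjoint_iff_inter_eq_empty.1 hTd, card_empty]), hs1]
        push_cast
        omega
      · rw [sum_sub_ind p (s := 3) (by rw [inter_eq_left.2 hTL, hT]), hs2]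
        push_cast
        omega
    · -- remove two pairs
      have e1 : t₁ = 0 := by omega
      have e2 : t₂ = 0 := by omega
      subst e1 e2
      obtain ⟨T, hTL, hT, hT1, hT2⟩ := pick (p := p) (S := L) (m := k) (s := 2) (by omega)
        (fun x _ => h0 x) (fun x hx => by have := h1 x hx; push_cast at this; omega)
        (by rw [hs1]; push_cast; omega) (by rw [hs1]; push_cast; omega)
      obtain ⟨U, hUL, hU, hU1, hU2⟩ := pick (p := p) (S := univ \ L) (m := k) (s := 2) (by omega)
        (fun x _ => h0 x) (fun x hx => by have := h2 x hx; push_cast at this; omega)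
        (by rw [hs2]; push_cast; omega) (by rw [hs2]; push_cast; omega)
      have hD1 : (T ∪ U) ∩ L = T := by
        ext x
        rw [mem_inter, mem_union]
        constructor
        · rintro ⟨h | h, hx⟩
          · exact h
          · exact ((mem_sdiff.1 (hUL h)).2 hx).elim
        · exact fun h => ⟨Or.inl h, hTL h⟩
      have hD2 : (T ∪ U) ∩ (univ \ L) = U := by
        ext x
        rw [mem_inter, mem_union]
        constructor
        · rintro ⟨h | h, hx⟩
          · exact ((mem_sdiff.1 hx).2 (hTL h)).elim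
          · exact h
        · exact fun h => ⟨Or.inr h, hUL h⟩
      have hD4 : (T ∪ U) \ L = (T ∪ U) ∩ (univ \ L) := by
        ext x
        simp only [mem_sdiff, mem_inter, mem_univ, true_and]
      have hD3 : (T ∪ U) \ L = U := by rw [hD4, hD2]
      refine intCone_add (D := T ∪ U) ((hM _).2 (Or.inr ⟨by rw [hD1, hT], by rw [hD3, hU]⟩)) ?_
      refine ih (k - 1) 0 0 (by omega) _ (fun x => ?_) (fun x hx => ?_) (fun x hx => ?_) ?_ ?_
      · have := h0 x
        split_ifs with h
        · rcases mem_union.1 h with h | h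
          · have := hT2 x h
            omega
          · have := hU2 x h
            omega
        · omega
      · have e1 := h1 x hx
        push_cast at e1
        split_ifs with h
        · push_cast
          omega
        · have : p x ≠ (k : ℤ) := fun e => h (mem_union_left _ (hT1 x hx e))
          push_cast
          omega
      · have e1 := h2 x hx
        push_cast at e1
        split_ifs with h
        · push_cast
          omega
        · have : p x ≠ (k : ℤ) := fun e => h (mem_union_right _ (hU1 x hx e))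
          push_cast
          omega
      · rw [sum_sub_ind p (s := 2) (by rw [hD1, hT]), hs1]
        push_cast
        omega
      · rw [sum_sub_ind p (s := 2) (by rw [hD2, hU]), hs2]
        push_cast
        omega

/-- The circuits of a matroid on two disjoint lines form a Hilbert basis. -/
theorem hilbert_two {M : Matroid α} {L : Finset α} (hM : TwoLines M L) : HilbertBasis M := by
  have htri : ∀ C : Finset α, M.IsCircuit (C : Set α) →
      ((C ∩ L).card = 3 ∧ (C ∩ (univ \ L)).card = 0) ∨
      ((C ∩ L).card = 0 ∧ (C ∩ (univ \ L)).card = 3) ∨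
      ((C ∩ L).card = 2 ∧ (C ∩ (univ \ L)).card = 2) := by
    intro C hC
    have e1 : C ∩ (univ \ L) = C \ L := by
      ext x
      simp only [mem_sdiff, mem_inter, mem_univ, true_and]
    rw [e1]
    have e2 := card_inter_add_card_sdiff C L
    rcases (hM C).1 hC with ⟨h1, h2 | h2⟩ | ⟨h1, h2⟩
    · left
      rw [inter_eq_left.2 h2] at e2 ⊢
      omega
    · right; left
      rw [disjoint_iff_inter_eq_empty.1 h2] at e2 ⊢
      rw [card_empty] at e2 ⊢
      omega
    · right; right
      exact ⟨h1, h2⟩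
  -- the sums
  have hsum : ∀ (R : Type) [CommRing R] (c : Finset α → R),
      (∀ C, c C ≠ 0 → M.IsCircuit (C : Set α)) →
      ∑ x ∈ L, ∑ C : Finset α, (if x ∈ C then c C else 0) =
        2 * ∑ C : Finset α, (if (C ∩ L).card = 2 then c C else 0) +
        3 * ∑ C : Finset α, (if (C ∩ L).card = 3 then c C else 0) ∧
      ∑ x ∈ univ \ L, ∑ C : Finset α, (if x ∈ C then c C else 0) =
        2 * ∑ C : Finset α, (if (C ∩ L).card = 2 then c C else 0) +
        3 * ∑ C : Finset α, (if (C ∩ L).card = 0 then c C else 0) := by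
    intro R _ c hc
    constructor
    · rw [sum_comm, mul_sum, mul_sum, ← sum_add_distrib]
      refine sum_congr rfl fun C _ => ?_
      rw [sum_ite_mem, sum_const, nsmul_eq_mul, inter_comm]
      by_cases h : c C = 0
      · rw [h]
        simp
      · rcases htri C (hc C h) with ⟨h1, -⟩ | ⟨h1, -⟩ | ⟨h1, -⟩ <;> rw [h1] <;> simp
    · rw [sum_comm, mul_sum, mul_sum, ← sum_add_distrib]
      refine sum_congr rfl fun C _ => ?_
      rw [sum_ite_mem, sum_const, nsmul_eq_mul, inter_comm]
      by_cases h : c C = 0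
      · rw [h]
        simp
      · rcases htri C (hc C h) with ⟨h1, h2⟩ | ⟨h1, h2⟩ | ⟨h1, h2⟩ <;> rw [h1, h2] <;> simp
  rintro p ⟨c, hc0, hc1, hc2⟩ ⟨d, hd1, hd2⟩
  obtain ⟨hd3, hd4⟩ := hsum ℤ d hd1
  obtain ⟨hc3, hc4⟩ := hsum ℚ c hc1
  set P₁ : ℤ := ∑ x ∈ L, p x with hP₁
  set P₂ : ℤ := ∑ x ∈ univ \ L, p x with hP₂
  have e1 : P₁ = ∑ x ∈ L, ∑ C : Finset α, (if x ∈ C then d C else 0) :=
    sum_congr rfl fun x _ => hd2 x
  have e2 : P₂ = ∑ x ∈ univ \ L, ∑ C : Finset α, (if x ∈ C then d C else 0) :=
    sum_congr rfl fun x _ => hd2 x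
  have e3 : (P₁ : ℚ) = ∑ x ∈ L, ∑ C : Finset α, (if x ∈ C then c C else 0) := by
    rw [hP₁]
    push_cast
    exact sum_congr rfl fun x _ => hc2 x
  have e4 : (P₂ : ℚ) = ∑ x ∈ univ \ L, ∑ C : Finset α, (if x ∈ C then c C else 0) := by
    rw [hP₂]
    push_cast
    exact sum_congr rfl fun x _ => hc2 x
  rw [hd3] at e1
  rw [hd4] at e2
  rw [hc3] at e3
  rw [hc4] at e4
  set κ : ℚ := ∑ C : Finset α, (if (C ∩ L).card = 2 then c C else 0) with hκ
  set τ₁ : ℚ := ∑ C : Finset α, (if (C ∩ L).card = 3 then c C else 0) with hτ₁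
  set τ₂ : ℚ := ∑ C : Finset α, (if (C ∩ L).card = 0 then c C else 0) with hτ₂
  have hnn : ∀ n : ℕ, (0 : ℚ) ≤ ∑ C : Finset α, (if (C ∩ L).card = n then c C else 0) := by
    intro n
    refine sum_nonneg fun C _ => ?_
    split_ifs
    · exact hc0 C
    · exact le_rfl
  have hκ0 : 0 ≤ κ := hnn 2
  have hτ₁0 : 0 ≤ τ₁ := hnn 3
  have hτ₂0 : 0 ≤ τ₂ := hnn 0
  have hp0 : ∀ x, 0 ≤ p x := by
    intro x
    have : (0 : ℚ) ≤ p x := by
      rw [hc2 x]
      refine sum_nonneg fun C _ => ?_
      split_ifs
      · exact hc0 C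
      · exact le_rfl
    exact_mod_cast this
  have hb1 : ∀ x ∈ L, (3 * p x - P₁ : ℤ) ≤ κ := by
    intro x hx
    have : (p x : ℚ) ≤ κ + τ₁ := by
      rw [hc2 x, hκ, hτ₁, ← sum_add_distrib]
      refine sum_le_sum fun C _ => ?_
      by_cases h : c C = 0
      · rw [h]
        simp
      · by_cases hxC : x ∈ C
        · have h3 : (C ∩ L).card ≠ 0 := by
            rw [card_ne_zero]
            exact ⟨x, mem_inter.2 ⟨hxC, hx⟩⟩
          rcases htri C (hc1 C h) with ⟨h1, -⟩ | ⟨h1, -⟩ | ⟨h1, -⟩
          · rw [h1, if_pos hxC]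
            simp
          · exact (h3 h1).elim
          · rw [h1, if_pos hxC]
            simp
        · rw [if_neg hxC]
          have := hc0 C
          split_ifs <;> linarith
    push_cast
    linarith
  have hb2 : ∀ x, x ∉ L → (3 * p x - P₂ : ℤ) ≤ κ := by
    intro x hx
    have : (p x : ℚ) ≤ κ + τ₂ := by
      rw [hc2 x, hκ, hτ₂, ← sum_add_distrib]
      refine sum_le_sum fun C _ => ?_
      by_cases h : c C = 0
      · rw [h]
        simp
      · by_cases hxC : x ∈ C
        · have h3 : (C ∩ (univ \ L)).card ≠ 0 := by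
            rw [card_ne_zero]
            exact ⟨x, mem_inter.2 ⟨hxC, mem_sdiff.2 ⟨mem_univ x, hx⟩⟩⟩
          rcases htri C (hc1 C h) with ⟨-, h1⟩ | ⟨h1, -⟩ | ⟨h1, -⟩
          · exact (h3 h1).elim
          · rw [h1, if_pos hxC]
            simp
          · rw [h1, if_pos hxC]
            simp
        · rw [if_neg hxC]
          have := hc0 C
          split_ifs <;> linarith
    push_cast
    linarith
  -- the choice of `k`
  have hk : ∃ k t₁ t₂ : ℤ, 0 ≤ k ∧ 0 ≤ t₁ ∧ 0 ≤ t₂ ∧ P₁ = 2 * k + 3 * t₁ ∧ P₂ = 2 * k + 3 * t₂ ∧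
      (∀ x ∈ L, 3 * p x - P₁ ≤ k) ∧ ∀ x, x ∉ L → 3 * p x - P₂ ≤ k := by
    let b : α → ℤ := fun x => 3 * p x - if x ∈ L then P₁ else P₂
    by_cases hpos : ∃ x, 0 < b x
    · obtain ⟨x₁, hx₁⟩ := hpos
      obtain ⟨x, -, hx⟩ := exists_max_image univ b ⟨x₁, mem_univ _⟩
      have hbκ : (b x : ℚ) ≤ κ := by
        by_cases hxL : x ∈ L
        · have := hb1 x hxL
          simp only [b, hxL, if_true]
          exact_mod_cast this
        · have := hb2 x hxL
          simp only [b, hxL, if_false]
          exact_mod_cast this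
      have hb0 : 0 < b x := lt_of_lt_of_le hx₁ (hx x₁ (mem_univ _))
      have h2k1 : 2 * b x ≤ P₁ := by
        have : (2 * b x : ℚ) ≤ P₁ := by linarith
        exact_mod_cast this
      have h2k2 : 2 * b x ≤ P₂ := by
        have : (2 * b x : ℚ) ≤ P₂ := by linarith
        exact_mod_cast this
      have hdiv : ∃ q : ℤ, P₁ - 2 * b x = 3 * q := by
        by_cases hxL : x ∈ L
        · simp only [b, hxL, if_true]
          exact ⟨P₁ - 2 * p x, by ring⟩
        · simp only [b, hxL, if_false]
          refine ⟨P₂ - 2 * p x + (∑ C : Finset α, (if (C ∩ L).card = 3 then d C else 0) -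
            ∑ C : Finset α, (if (C ∩ L).card = 0 then d C else 0)), ?_⟩
          linarith
      obtain ⟨q, hq⟩ := hdiv
      have hdiv2 : P₂ - 2 * b x = 3 * (q - (∑ C : Finset α, (if (C ∩ L).card = 3 then d C else 0) -
            ∑ C : Finset α, (if (C ∩ L).card = 0 then d C else 0))) := by linarith
      obtain ⟨q₂, hq₂⟩ : ∃ q₂ : ℤ, P₂ - 2 * b x = 3 * q₂ := ⟨_, hdiv2⟩
      refine ⟨b x, q, q₂, hb0.le, by omega, by omega, by omega, by omega, fun y hy => ?_,
        fun y hy => ?_⟩
      · have := hx y (mem_univ _)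
        simp only [b, hy, if_true] at this
        exact this
      · have := hx y (mem_univ _)
        simp only [b, hy, if_false] at this
        exact this
    · push Not at hpos
      have hb1' : ∀ x ∈ L, 3 * p x ≤ P₁ := by
        intro x hx
        have := hpos x
        simp only [b, hx, if_true] at this
        linarith
      have hb2' : ∀ x, x ∉ L → 3 * p x ≤ P₂ := by
        intro x hx
        have := hpos x
        simp only [b, hx, if_false] at this
        linarith
      have hP₁0 : 0 ≤ P₁ := sum_nonneg fun x _ => hp0 x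
      have hP₂0 : 0 ≤ P₂ := sum_nonneg fun x _ => hp0 x
      have h31 : P₁ = 0 ∨ 3 ≤ P₁ := by
        by_cases h : P₁ = 0
        · exact Or.inl h
        · right
          obtain ⟨x, hx, hpx⟩ : ∃ x ∈ L, p x ≠ 0 := by
            by_contra hcon
            push Not at hcon
            exact h (sum_eq_zero hcon)
          have := hb1' x hx
          have := hp0 x
          omega
      have h32 : P₂ = 0 ∨ 3 ≤ P₂ := by
        by_cases h : P₂ = 0
        · exact Or.inl h
        · right
          obtain ⟨x, hx, hpx⟩ : ∃ x ∈ univ \ L, p x ≠ 0 := by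
            by_contra hcon
            push Not at hcon
            exact h (sum_eq_zero hcon)
          have := hb2' x (mem_sdiff.1 hx).2
          have := hp0 x
          omega
      generalize (∑ C : Finset α, (if (C ∩ L).card = 2 then d C else 0)) = K at e1 e2
      generalize (∑ C : Finset α, (if (C ∩ L).card = 3 then d C else 0)) = T₁ at e1
      generalize (∑ C : Finset α, (if (C ∩ L).card = 0 then d C else 0)) = T₂ at e2
      have hmod : P₁ % 3 = 0 ∨ P₁ % 3 = 1 ∨ P₁ % 3 = 2 := by omega
      have hmod2 : P₁ % 3 = P₂ % 3 := by omega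
      rcases hmod with h | h | h
      · exact ⟨0, P₁ / 3, P₂ / 3, le_rfl, by omega, by omega, by omega, by omega,
          fun x hx => by have := hb1' x hx; omega, fun x hx => by have := hb2' x hx; omega⟩
      · exact ⟨2, (P₁ - 4) / 3, (P₂ - 4) / 3, by omega, by omega, by omega, by omega, by omega,
          fun x hx => by have := hb1' x hx; omega, fun x hx => by have := hb2' x hx; omega⟩
      · exact ⟨1, (P₁ - 2) / 3, (P₂ - 2) / 3, by omega, by omega, by omega, by omega, by omega,
          fun x hx => by have := hb1' x hx; omega, fun x hx => by have := hb2' x hx; omega⟩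
  obtain ⟨k, t₁, t₂, hk0, ht₁0, ht₂0, hk1, hk2, hk3, hk4⟩ := hk
  obtain ⟨k', rfl⟩ := Int.eq_ofNat_of_zero_le hk0
  obtain ⟨t₁', rfl⟩ := Int.eq_ofNat_of_zero_le ht₁0
  obtain ⟨t₂', rfl⟩ := Int.eq_ofNat_of_zero_le ht₂0
  refine two_aux hM _ k' t₁' t₂' rfl p hp0 (fun x hx => ?_) (fun x hx => ?_) hk1 hk2
  · have := hk3 x hx
    omega
  · have := hk4 x (mem_sdiff.1 hx).2
    omega

end Pool.Agent.Q114.HB
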