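import Pool.Agent.Q114.HB.Classify
import Pool.Agent.Q114.HB.TwoLines

set_option autoImplicit false
set_option linter.unusedSectionVars false

/-!
The classification of the simple matroids of rank three with at least ten elements whose circuits form
a Hilbert basis.
-/

namespace Pool.Agent.Q114.HB

open Finset

variable {α : Type} [Fintype α] [DecidableEq α] {M : Matroid α}

theorem two_of (h : IsPaving M 3) {W₀ : Finset α} (hW₀ : W₀.card + 1 = 3)
    (h3c : ∀ S : Finset α, S.card = 3 → Disjoint S (cl M W₀) → M.IsCircuit (S : Set α))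
    (hK : ∀ C : Finset α, M.IsCircuit (C : Set α) → C.card = 3 → ∀ x ∈ C,
      (∀ y ∈ C, y ≠ x → y ∉ cl M W₀) → x ∉ cl M W₀) : TwoLines M (cl M W₀) := by
  have F1 : ∀ C : Finset α, M.IsCircuit (C : Set α) → (C \ cl M W₀).card ≠ 1 := by
    intro C hC h1
    obtain ⟨x, hx⟩ := card_eq_one.1 h1
    have hx' : x ∈ C \ cl M W₀ := by rw [hx]; exact mem_singleton_self x
    obtain ⟨hxC, hxL⟩ := mem_sdiff.1 hx'
    refine hxL (mem_cl_of_circuit hC hxC fun y hy => ?_)
    by_contra hyL
    have : y ∈ C \ cl M W₀ := mem_sdiff.2 ⟨mem_of_mem_erase hy, hyL⟩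
    rw [hx, mem_singleton] at this
    exact ne_of_mem_erase hy this
  have F2 : ∀ C : Finset α, M.IsCircuit (C : Set α) → C.card = 3 → (C ∩ cl M W₀).card ≠ 1 := by
    intro C hC hC3 h1
    obtain ⟨x, hx⟩ := card_eq_one.1 h1
    have hx' : x ∈ C ∩ cl M W₀ := by rw [hx]; exact mem_singleton_self x
    obtain ⟨hxC, hxL⟩ := mem_inter.1 hx'
    refine hK C hC hC3 x hxC (fun y hy hyx hyL => ?_) hxL
    have : y ∈ C ∩ cl M W₀ := mem_inter.2 ⟨hy, hyL⟩
    rw [hx, mem_singleton] at this
    exact hyx this
  intro C
  have hab := card_inter_add_card_sdiff C (cl M W₀)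
  constructor
  · intro hC
    have h1 := h.ge C hC
    have h2 := h.le C hC
    have f1 := F1 C hC
    have f3 : 3 ≤ (C \ cl M W₀).card → C.card = 3 := by
      intro h3
      obtain ⟨S, hS, hS3⟩ := exists_subset_card_eq h3
      have h4 := h3c S hS3 (disjoint_left.2 fun x hx => (mem_sdiff.1 (hS hx)).2)
      have h5 := hC.eq_of_superset_isCircuit h4 (Finset.coe_subset.2 (hS.trans sdiff_subset))
      rw [Finset.coe_injective h5, hS3]
    by_cases hC3 : C.card = 3
    · have f2 := F2 C hC hC3
      have h3 : (C \ cl M W₀).card = 0 ∨ (C ∩ cl M W₀).card = 0 := by omega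
      refine Or.inl ⟨hC3, ?_⟩
      rcases h3 with h3 | h3
      · left
        rw [card_eq_zero, sdiff_eq_empty_iff_subset] at h3
        exact h3
      · right
        rw [card_eq_zero, ← disjoint_iff_inter_eq_empty] at h3
        exact h3
    · right
      have h3 : (C \ cl M W₀).card ≠ 0 := by
        intro h3
        rw [card_eq_zero, sdiff_eq_empty_iff_subset] at h3
        exact hC3 ((h.circuit_iff_of_subset_cl hW₀ h3).1 hC)
      have h4 : ¬ 3 ≤ (C \ cl M W₀).card := fun h4 => hC3 (f3 h4)
      omega
  · rintro (⟨h1, h2 | h2⟩ | ⟨h1, h2⟩)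
    · exact h.circuit_of_cl hW₀ h2 h1
    · exact h3c C h1 h2
    · refine h.circuit (by omega) fun S hS hS3 hSc => ?_
      have g1 := F1 S hSc
      have g2 := F2 S hSc hS3
      have g3 := card_inter_add_card_sdiff S (cl M W₀)
      have g4 := card_le_card (inter_subset_inter_right (u := cl M W₀) hS)
      have g5 := card_le_card (sdiff_subset_sdiff hS (Subset.refl (cl M W₀)))
      omega

theorem cover (h : IsPaving M 3) {W W' : Finset α} (hW : W.card + 1 = 3) (hW' : W'.card + 1 = 3)
    (hcov : ∀ x, x ∈ cl M W ∨ x ∈ cl M W') (h5 : 5 ≤ (cl M W).card) (hHB : HilbertBasis M) :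
    ∃ L, TwoLines M L := by
  refine ⟨cl M W, two_of h hW (fun S hS hd => h.circuit_of_cl hW' (fun x hx =>
    (hcov x).resolve_left (disjoint_left.1 hd hx)) hS) ?_⟩
  intro C hC hC3 x hxC hy hxL
  have hcard : (C.erase x).card = 2 := by rw [card_erase_of_mem hxC, hC3]
  obtain ⟨g, k, hgk, hCe⟩ := card_eq_two.1 hcard
  have hgC : g ∈ C.erase x := by rw [hCe]; simp
  have hkC : k ∈ C.erase x := by rw [hCe]; simp
  have hgL : g ∉ cl M W := hy g (mem_of_mem_erase hgC) (ne_of_mem_erase hgC)
  have hkL : k ∉ cl M W := hy k (mem_of_mem_erase hkC) (ne_of_mem_erase hkC)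
  have hsub : C.erase x ⊆ cl M W' := by
    intro y hyC
    exact (hcov y).resolve_left (hy y (mem_of_mem_erase hyC) (ne_of_mem_erase hyC))
  have hxL' : x ∈ cl M W' := mem_cl_of_circuit hC hxC hsub
  by_cases hu : ∃ u, u ∉ cl M W ∧ u ≠ g ∧ u ≠ k
  · obtain ⟨u, huL, hug, huk⟩ := hu
    have hxg : x ≠ g := (ne_of_mem_erase hgC).symm
    have hxk : x ≠ k := (ne_of_mem_erase hkC).symm
    have hxu : x ≠ u := fun h => huL (h ▸ hxL)
    have h4 : 3 + 1 ≤ (cl M W').card := by
      have e1 : ({x, g, k, u} : Finset α) ⊆ cl M W' := by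
        intro y hy
        simp only [mem_insert, mem_singleton] at hy
        rcases hy with rfl | rfl | rfl | rfl
        · exact hxL'
        · exact (hcov _).resolve_left hgL
        · exact (hcov _).resolve_left hkL
        · exact (hcov _).resolve_left huL
      have e2 : ({x, g, k, u} : Finset α).card = 4 := by
        rw [card_insert_of_notMem, card_insert_of_notMem, card_insert_of_notMem, card_singleton]
        · simpa using huk.symm
        · simp only [mem_insert, mem_singleton, not_or]
          exact ⟨hgk, hug.symm⟩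
        · simp only [mem_insert, mem_singleton, not_or]
          exact ⟨hxg, hxk, hxu⟩
      have e3 := card_le_card e1
      omega
    have hlk : ∀ y, y = x ∨ (Exch M y x ∧ Exch M x y) := by
      intro y
      by_cases hyx : y = x
      · exact Or.inl hyx
      · right
        rcases hcov y with hy | hy
        · exact ⟨h.link_in hW (by omega) hy hxL hyx, h.link_in hW (by omega) hxL hy (Ne.symm hyx)⟩
        · exact ⟨h.link_in hW' h4 hy hxL' hyx, h.link_in hW' h4 hxL' hy (Ne.symm hyx)⟩
    have hlink : ∀ a b, Relation.ReflTransGen (Exch M) a b := by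
      intro a b
      have h1 : Relation.ReflTransGen (Exch M) a x := by
        rcases hlk a with h1 | h1
        · rw [h1]
        · exact Relation.ReflTransGen.single h1.1
      have h2 : Relation.ReflTransGen (Exch M) x b := by
        rcases hlk b with h1 | h1
        · rw [h1]
        · exact Relation.ReflTransGen.single h1.2
      exact h1.trans h2
    have hout : 2 ≤ (({g, k} : Finset α) \ cl M W).card := by
      have : ({g, k} : Finset α) \ cl M W = {g, k} := by
        rw [Finset.sdiff_eq_self_iff_disjoint, disjoint_left]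
        intro x hx
        simp only [mem_insert, mem_singleton] at hx
        rcases hx with rfl | rfl <;> assumption
      rw [this, card_pair hgk]
    obtain ⟨Q, -, hQ2, hQ3⟩ := h.grow le_rfl (by omega) 2 {g, k} (by rw [card_pair hgk]) hout (by
      intro S hS hSr
      have := card_le_card hS
      rw [card_pair hgk] at this
      omega)
    have := ((iff_of_linked h (by omega) hlink ⟨Q, hQ2, h.circuit hQ2 hQ3⟩).1 hHB C).1 hC
    omega
  · push Not at hu
    have hcl : ∀ y, y ∈ cl M W ↔ y ≠ g ∧ y ≠ k := by
      intro y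
      refine ⟨fun hy => ⟨fun h => hgL (h ▸ hy), fun h => hkL (h ▸ hy)⟩, fun hy => ?_⟩
      by_contra hyL
      exact hy.2 (hu y hyL hy.1)
    rcases (h.series le_rfl hW (by omega) hgk hcl hHB C).1 hC with ⟨h1, -⟩ | ⟨-, -, h1⟩
    · exact h1 (mem_of_mem_erase hgC)
    · omega

/-- The classification of the simple matroids of rank three with at least ten elements. -/
theorem rank_three (h : IsPaving M 3) (hn : 10 ≤ Fintype.card α) :
    HilbertBasis M ↔
      (∀ C : Finset α, M.IsCircuit (C : Set α) ↔ C.card = 4) ∨ ∃ L, TwoLines M L := by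
  constructor
  swap
  · rintro (hU | ⟨L, hL⟩)
    · exact hilbert_of_uniform (by omega) hU
    · exact hilbert_two hL
  intro hHB
  by_cases hcov : ∀ W W' : Finset α, W.card = 2 → W'.card = 2 →
      ∃ x, x ∉ M.closure (W : Set α) ∧ x ∉ M.closure (W' : Set α)
  · have key : ∀ e f : α, e ≠ f → ¬ ∀ S : Finset α, e ∉ S → f ∉ S → S.card = 3 →
        M.IsCircuit (S : Set α) := by
      intro e f hef hS
      have hVc : ((univ : Finset α) \ {e, f}).card = Fintype.card α - 2 := by
        rw [card_sdiff_of_subset (subset_univ _), card_pair hef, card_univ]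
      obtain ⟨W, hW, hWc⟩ := exists_subset_card_eq (s := (univ : Finset α) \ {e, f}) (n := 2)
        (by omega)
      obtain ⟨x, hx1, hx2⟩ := hcov W {e, f} hWc (card_pair hef)
      have hxe : x ≠ e := fun h1 => hx2 (mem_cl.1 (h.subset_cl _ (by simp [h1])))
      have hxf : x ≠ f := fun h1 => hx2 (mem_cl.1 (h.subset_cl _ (by simp [h1])))
      have hxW : x ∉ W := fun h1 => hx1 (mem_cl.1 (h.subset_cl _ h1))
      have heW : e ∉ W := fun h => by
        have := hW h
        simp at this
      have hfW : f ∉ W := fun h => by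
        have := hW h
        simp at this
      refine hx1 (mem_cl.1 (mem_cl_of_circuit (hS (insert x W) ?_ ?_ ?_) (mem_insert_self _ _) ?_))
      · rw [mem_insert, not_or]
        exact ⟨hxe.symm, heW⟩
      · rw [mem_insert, not_or]
        exact ⟨hxf.symm, hfW⟩
      · rw [card_insert_of_notMem hxW, hWc]
      · rw [erase_insert hxW]
        exact h.subset_cl _
    rcases (h.classify le_rfl (by omega) (by omega) fun _ => hcov).1 hHB with h1 | ⟨e, h1⟩ |
      ⟨e, f, hef, h1⟩
    · exact Or.inl h1
    · exfalso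
      obtain ⟨f, hf⟩ : ∃ f, f ≠ e := by
        have : Nontrivial α := Fintype.one_lt_card_iff_nontrivial.1 (by omega)
        exact exists_ne e
      exact key e f hf.symm fun S h2 _ h4 => (h1 S).2 ⟨h2, h4⟩
    · exact (key e f hef fun S h2 h3 h4 => (h1 S).2 (Or.inl ⟨h2, h3, h4⟩)).elim
  · right
    push Not at hcov
    obtain ⟨W, W', hW, hW', hc⟩ := hcov
    have hc' : ∀ x, x ∈ cl M W ∨ x ∈ cl M W' := by
      intro x
      by_cases hx : x ∈ M.closure (W : Set α)
      · exact Or.inl (mem_cl.2 hx)
      · exact Or.inr (mem_cl.2 (hc x hx))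
    have hcard : 10 ≤ (cl M W).card + (cl M W').card := by
      have e1 : (univ : Finset α) ⊆ cl M W ∪ cl M W' := fun x _ => mem_union.2 (hc' x)
      have e2 := card_le_card e1
      have e3 := card_union_le (cl M W) (cl M W')
      rw [card_univ] at e2
      omega
    by_cases h5 : 5 ≤ (cl M W).card
    · exact cover h (by omega) (by omega) hc' h5 hHB
    · exact cover h (W := W') (W' := W) (by omega) (by omega) (fun x => (hc' x).symm) (by omega) hHB

/-- The classification in terms of the usual definitions. -/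
theorem simple_rank_three (hE : M.E = Set.univ) (hrank : M.eRank = 3)
    (hsimple : ∀ C : Finset α, M.IsCircuit (C : Set α) → 3 ≤ C.card)
    (hn : 10 ≤ Fintype.card α) :
    HilbertBasis M ↔
      (∀ C : Finset α, M.IsCircuit (C : Set α) ↔ C.card = 4) ∨ ∃ L, TwoLines M L :=
  rank_three (isPaving hE (by exact_mod_cast hrank) hsimple) hn

end Pool.Agent.Q114.HB
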