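import Pool.Agent.Q114.HB.Large

set_option autoImplicit false
set_option linter.unusedSectionVars false

/-!
Matroids of rank two.
-/

namespace Pool.Agent.Q114.HB

open Finset

variable {α : Type} [Fintype α] [DecidableEq α] {M : Matroid α}

theorem card_cl_inter (h : IsPaving M 2) {R : Finset α}
    (hR : ∀ x ∈ R, ∀ y ∈ R, ¬ M.IsCircuit (({x, y} : Finset α) : Set α)) (e : α) :
    (R ∩ cl M {e}).card ≤ 1 := by
  by_contra hcon
  obtain ⟨a, ha, b, hb, hab⟩ := one_lt_card.1 (not_le.1 hcon)
  refine hR a (mem_inter.1 ha).1 b (mem_inter.1 hb).1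
    (h.circuit_of_cl (W := {e}) (by simp) (fun x hx => ?_) (card_pair hab))
  simp only [mem_insert, mem_singleton] at hx
  rcases hx with rfl | rfl
  · exact (mem_inter.1 ha).2
  · exact (mem_inter.1 hb).2

theorem exch_two (h : IsPaving M 2) {R : Finset α} (hR4 : R.card = 4)
    (hR : ∀ x ∈ R, ∀ y ∈ R, ¬ M.IsCircuit (({x, y} : Finset α) : Set α)) (e f : α) :
    ∃ X : Finset α, e ∉ X ∧ f ∉ X ∧ X.card = 2 ∧ M.IsCircuit ((insert e X : Finset α) : Set α) ∧
      M.IsCircuit ((insert f X : Finset α) : Set α) := by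
  have h1 := card_cl_inter h hR e
  have h2 := card_cl_inter h hR f
  have h3 : 1 < (R \ (cl M {e} ∪ cl M {f})).card := by
    have e1 := card_inter_add_card_sdiff R (cl M {e} ∪ cl M {f})
    have e2 : (R ∩ (cl M {e} ∪ cl M {f})).card ≤ 2 := by
      rw [inter_union_distrib_left]
      exact (card_union_le _ _).trans (by omega)
    omega
  obtain ⟨a, ha, b, hb, hab⟩ := one_lt_card.1 h3
  obtain ⟨haR, ha'⟩ := mem_sdiff.1 ha
  obtain ⟨hbR, hb'⟩ := mem_sdiff.1 hb
  rw [mem_union, not_or] at ha' hb'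
  have key : ∀ u, a ∉ cl M {u} → b ∉ cl M {u} → u ∉ ({a, b} : Finset α) ∧
      M.IsCircuit ((insert u {a, b} : Finset α) : Set α) := by
    intro u hau hbu
    have hua : u ≠ a := fun h1 => hau (h1 ▸ h.subset_cl {u} (mem_singleton_self u))
    have hub : u ≠ b := fun h1 => hbu (h1 ▸ h.subset_cl {u} (mem_singleton_self u))
    have hu : u ∉ ({a, b} : Finset α) := by
      simp only [mem_insert, mem_singleton, not_or]
      exact ⟨hua, hub⟩
    refine ⟨hu, h.circuit (by rw [card_insert_of_notMem hu, card_pair hab]) fun S hS hS2 hSc => ?_⟩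
    by_cases huS : u ∈ S
    · -- the other element of `S`
      have h4 : (S.erase u).card = 1 := by rw [card_erase_of_mem huS, hS2]
      obtain ⟨z, hz⟩ := card_eq_one.1 h4
      have hzS : z ∈ S.erase u := by rw [hz]; exact mem_singleton_self z
      have hzcl : z ∈ cl M {u} := by
        refine mem_cl_of_circuit hSc (mem_of_mem_erase hzS) fun y hy => ?_
        by_contra hyu
        have hyu' : y ≠ u := fun h5 => hyu (h5 ▸ h.subset_cl {u} (mem_singleton_self u))
        have : y ∈ S.erase u := mem_erase.2 ⟨hyu', mem_of_mem_erase hy⟩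
        rw [hz, mem_singleton] at this
        exact ne_of_mem_erase hy this
      have hzab := hS (mem_of_mem_erase hzS)
      simp only [mem_insert, mem_singleton] at hzab
      rcases hzab with h5 | h5 | h5
      · exact ne_of_mem_erase hzS h5
      · exact hau (h5 ▸ hzcl)
      · exact hbu (h5 ▸ hzcl)
    · have h4 : S ⊆ {a, b} := (subset_insert_iff_of_notMem huS).1 hS
      have h5 : S = {a, b} := eq_of_subset_of_card_le h4 (by rw [card_pair hab, hS2])
      rw [h5] at hSc
      exact hR a haR b hbR hSc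
  obtain ⟨g1, g2⟩ := key e ha'.1 hb'.1
  obtain ⟨g3, g4⟩ := key f ha'.2 hb'.2
  exact ⟨{a, b}, g1, g3, card_pair hab, g2, g4⟩

/-- Loopless matroids of rank two with at least four parallel classes. -/
theorem rank_two (hE : M.E = Set.univ) (hrank : M.eRank = 2)
    (hloop : ∀ C : Finset α, M.IsCircuit (C : Set α) → 2 ≤ C.card)
    (hR : ∃ R : Finset α, R.card = 4 ∧
      ∀ x ∈ R, ∀ y ∈ R, ¬ M.IsCircuit (({x, y} : Finset α) : Set α)) :
    HilbertBasis M ↔ ∀ C : Finset α, M.IsCircuit (C : Set α) ↔ C.card = 3 := by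
  have h := isPaving hE (by exact_mod_cast hrank) hloop
  obtain ⟨R, hR4, hR⟩ := hR
  refine iff_of_linked h le_rfl (fun e f => ?_) ?_
  · obtain ⟨X, h1, h2, -, h4, h5⟩ := exch_two h hR4 hR e f
    exact Relation.ReflTransGen.single ⟨X, h1, h2, h4, h5⟩
  · obtain ⟨e, he⟩ : R.Nonempty := by
      rw [← card_pos]
      omega
    obtain ⟨X, h1, -, hX, h4, -⟩ := exch_two h hR4 hR e e
    exact ⟨insert e X, by rw [card_insert_of_notMem h1, hX], h4⟩

end Pool.Agent.Q114.HB
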