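import Pool.Agent.Q114.HB.Basic

set_option autoImplicit false
set_option linter.unusedSectionVars false

/-!
The circuits of a uniform matroid form a Hilbert basis.
-/

namespace Pool.Agent.Q114.HB

open Finset

variable {α : Type} [Fintype α] [DecidableEq α]

theorem uniform_aux {M : Matroid α} {k : ℕ}
    (hM : ∀ C : Finset α, M.IsCircuit (C : Set α) ↔ C.card = k) (m : ℕ) :
    ∀ p : α → ℤ, (∀ x, 0 ≤ p x) → (∀ x, p x ≤ m) → ∑ x, p x = k * m → InIntCone M p := by
  induction m with
  | zero =>
    intro p h0 h1 _
    refine ⟨fun _ => 0, fun _ => le_rfl, fun C h => (h rfl).elim, fun x => ?_⟩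
    have := h1 x
    have := h0 x
    simp only [Nat.cast_zero] at *
    simp
    omega
  | succ m ih =>
    intro p h0 h1 hs
    have hm : (0 : ℤ) < (m : ℤ) + 1 := by positivity
    let A : Finset α := univ.filter fun x => p x = m + 1
    let B : Finset α := univ.filter fun x => p x ≠ 0
    have hAB : A ⊆ B := by
      intro x hx
      have hx' := (mem_filter.1 hx).2
      exact mem_filter.2 ⟨mem_univ _, by omega⟩
    have hA : A.card ≤ k := by
      have e1 : (A.card : ℤ) * (m + 1) ≤ ∑ x, p x := by
        calc (A.card : ℤ) * (m + 1) = ∑ x ∈ A, p x := by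
              rw [sum_congr rfl fun x hx => (mem_filter.1 hx).2, sum_const, nsmul_eq_mul]
          _ ≤ ∑ x, p x := sum_le_sum_of_subset_of_nonneg (subset_univ _) fun x _ _ => h0 x
      rw [hs] at e1
      push_cast at e1
      have := le_of_mul_le_mul_right e1 hm
      exact_mod_cast this
    have hB : k ≤ B.card := by
      have e1 : ∑ x, p x ≤ (B.card : ℤ) * (m + 1) := by
        calc ∑ x, p x = ∑ x ∈ B, p x := by
              symm
              refine sum_subset (subset_univ _) fun x _ hx => ?_
              by_contra h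
              exact hx (mem_filter.2 ⟨mem_univ _, h⟩)
          _ ≤ ∑ x ∈ B, ((m : ℤ) + 1) := sum_le_sum fun x _ => by
              have := h1 x
              push_cast at this
              exact this
          _ = (B.card : ℤ) * (m + 1) := by rw [sum_const, nsmul_eq_mul]
      rw [hs] at e1
      push_cast at e1
      have := le_of_mul_le_mul_right e1 hm
      exact_mod_cast this
    obtain ⟨T, hAT, hTB, hT⟩ := exists_subsuperset_card_eq hAB hA hB
    obtain ⟨c, hc0, hc1, hc2⟩ := ih (fun x => p x - if x ∈ T then 1 else 0) (fun x => by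
        have h2 := h0 x
        show (0 : ℤ) ≤ p x - if x ∈ T then 1 else 0
        split_ifs with hx
        · have h3 := (mem_filter.1 (hTB hx)).2
          omega
        · omega) (fun x => by
        have h2 := h1 x
        push_cast at h2
        show p x - (if x ∈ T then 1 else 0) ≤ (m : ℤ)
        split_ifs with hx
        · omega
        · have h3 : p x ≠ m + 1 := fun h => hx (hAT (mem_filter.2 ⟨mem_univ _, h⟩))
          omega) (by
        rw [sum_sub_distrib, hs]
        have : ∑ x : α, (if x ∈ T then (1 : ℤ) else 0) = k := by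
          rw [sum_ite_mem, univ_inter, sum_const, hT]
          simp
        rw [this]
        push_cast
        ring)
    refine ⟨fun C => c C + if C = T then 1 else 0, fun C => ?_, fun C hC => ?_, fun x => ?_⟩
    · have := hc0 C
      show (0 : ℤ) ≤ c C + if C = T then 1 else 0
      split_ifs <;> omega
    · by_cases h : c C = 0
      · have h2 : C = T := by
          by_contra h3
          apply hC
          show c C + (if C = T then 1 else 0) = 0
          rw [h, if_neg h3, add_zero]
        rw [h2, hM, hT]
      · exact hc1 C h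
    · have h2 := hc2 x
      have h3 : ∑ C : Finset α, (if x ∈ C then c C + (if C = T then (1 : ℤ) else 0) else 0) =
          ∑ C : Finset α, (if x ∈ C then c C else 0) +
            ∑ C : Finset α, (if C = T then (if x ∈ C then (1 : ℤ) else 0) else 0) := by
        rw [← sum_add_distrib]
        refine sum_congr rfl fun C _ => ?_
        split_ifs <;> simp
      rw [h3, ← h2, sum_ite_eq' univ T, if_pos (mem_univ _)]
      ring

/-- The circuits of a uniform matroid form a Hilbert basis. -/
theorem hilbert_of_uniform {M : Matroid α} {k : ℕ}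
    (hk : 0 < k) (hM : ∀ C : Finset α, M.IsCircuit (C : Set α) ↔ C.card = k) : HilbertBasis M := by
  rintro p ⟨c, hc0, hc1, hc2⟩ ⟨d, hd1, hd2⟩
  have hk' : (0 : ℤ) < k := by exact_mod_cast hk
  have hsum : ∀ (R : Type) [CommRing R] (c : Finset α → R),
      (∀ C, c C ≠ 0 → M.IsCircuit (C : Set α)) →
      ∑ x : α, ∑ C : Finset α, (if x ∈ C then c C else 0) = k * ∑ C : Finset α, c C := by
    intro R _ c hc
    rw [sum_comm, mul_sum]
    refine sum_congr rfl fun C _ => ?_
    rw [sum_ite_mem, univ_inter, sum_const, nsmul_eq_mul]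
    by_cases h : c C = 0
    · rw [h, mul_zero, mul_zero]
    · rw [(hM C).1 (hc C h)]
  have h1 : ∑ x, p x = k * ∑ C : Finset α, d C := by
    rw [← hsum ℤ d hd1]
    exact sum_congr rfl fun x _ => hd2 x
  have h2 : ((∑ x, p x : ℤ) : ℚ) = k * ∑ C : Finset α, c C := by
    rw [← hsum ℚ c hc1]
    push_cast
    exact sum_congr rfl fun x _ => hc2 x
  have h3 : ∀ x, 0 ≤ p x := by
    intro x
    have : (0 : ℚ) ≤ p x := by
      rw [hc2 x]
      refine sum_nonneg fun C _ => ?_
      split_ifs
      · exact hc0 C
      · exact le_rfl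
    exact_mod_cast this
  have h4 : ((∑ C : Finset α, d C : ℤ) : ℚ) = ∑ C : Finset α, c C := by
    have h5 : (k : ℚ) ≠ 0 := by positivity
    apply mul_left_cancel₀ h5
    rw [← h2, h1]
    push_cast
    rfl
  have h5 : ∀ x, p x ≤ ∑ C : Finset α, d C := by
    intro x
    have : (p x : ℚ) ≤ ((∑ C : Finset α, d C : ℤ) : ℚ) := by
      rw [h4, hc2 x]
      refine sum_le_sum fun C _ => ?_
      split_ifs
      · exact le_rfl
      · exact hc0 C
    exact_mod_cast this
  have h6 : 0 ≤ ∑ C : Finset α, d C := by
    have : (0 : ℚ) ≤ ((∑ C : Finset α, d C : ℤ) : ℚ) := by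
      rw [h4]
      exact sum_nonneg fun C _ => hc0 C
    exact_mod_cast this
  obtain ⟨m, hm⟩ := Int.eq_ofNat_of_zero_le h6
  refine uniform_aux hM m p h3 (fun x => ?_) ?_
  · rw [← hm]
    exact h5 x
  · rw [h1, hm]

end Pool.Agent.Q114.HB
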